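import Mathlib

/-!
# Measures on a product determined by the continuous functions of finitely many coordinates
-/

open MeasureTheory Filter Topology

namespace Run7.h182.Unq

/-- Two probability measures on a product of compact metrizable spaces which have the same
integrals of all continuous functions of finitely many coordinates are equal. -/
theorem ext_local {ι : Type*} {G : Type*} [TopologicalSpace G] [CompactSpace G]
    [TopologicalSpace.PseudoMetrizableSpace G] [SecondCountableTopology G] [MeasurableSpace G]
    [BorelSpace G] {ν ν' : Measure (ι → G)} [IsProbabilityMeasure ν] [IsProbabilityMeasure ν']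
    (h : ∀ F : (ι → G) → ℝ, Continuous F → (∃ I : Finset ι, ∀ V V' : ι → G,
      (∀ i ∈ I, V i = V' i) → F V = F V') → ∫ V, F V ∂ν = ∫ V, F V ∂ν') : ν = ν' := by
  have h1 : ∀ I : Finset ι, ν.map I.restrict = ν'.map I.restrict := by
    intro I
    have hm : Measurable (I.restrict : (ι → G) → I → G) :=
      measurable_pi_iff.2 fun i => measurable_pi_apply _
    haveI : IsProbabilityMeasure (ν.map (I.restrict : (ι → G) → I → G)) :=
      Measure.isProbabilityMeasure_map hm.aemeasurable
    haveI : IsProbabilityMeasure (ν'.map (I.restrict : (ι → G) → I → G)) :=
      Measure.isProbabilityMeasure_map hm.aemeasurable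
    refine ext_of_forall_integral_eq_of_IsFiniteMeasure fun f => ?_
    have hf : Measurable (f : (I → G) → ℝ) := f.continuous.measurable
    rw [integral_map hm.aemeasurable hf.aestronglyMeasurable,
      integral_map hm.aemeasurable hf.aestronglyMeasurable]
    refine h (fun V => f (I.restrict V)) (f.continuous.comp (continuous_pi fun i =>
      continuous_apply _)) ⟨I, fun V V' hV => ?_⟩
    congr 1
    funext i
    exact hV i i.2
  have h2 : IsProjectiveLimit ν fun I : Finset ι => ν.map I.restrict := fun I => rfl
  have h3 : IsProjectiveLimit ν' fun I : Finset ι => ν.map I.restrict := fun I => (h1 I).symm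
  haveI : ∀ I : Finset ι, IsFiniteMeasure ((fun I : Finset ι => ν.map I.restrict) I) := by
    intro I
    exact Measure.isFiniteMeasure_map _ _
  exact h2.unique h3

end Run7.h182.Unq
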