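import Pool.Agent.Run7.h182.Unq

/-!
# Uniqueness of the infinite volume limit: windows around the origin
-/

set_option linter.unusedSectionVars false
set_option linter.unusedVariables false
set_option linter.style.haveILetI false

open MeasureTheory Filter Topology

namespace Run7.h182.Unq

open Pool.Agent.Run7.h897 Pool.Agent.Run7.h897.TW
open Pool.Agent.Run7.h897.FS (BM PM)
open Run7.h182.Tru (LkN Lw PW compareL)

variable {N l : ℕ} {G : Type*} [Group G] [NeZero N] [NeZero l] {w : Ens N l G} {z : ZMod N → G}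

lemma bsE_sh {a b : ℕ} [NeZero a] [NeZero b] (n : ZMod N) (p : ZMod a × ZMod b)
    (U : Lk a b l → G) (u : ZMod a × ZMod b) :
    bsE w n (fun e => U (shL p e)) u = bsE w n U (u + p) := by
  unfold bsE
  refine Finset.sum_congr rfl fun y _ => ?_
  rw [plq_sh]
  rfl

lemma wS_sh {a b : ℕ} [NeZero a] [NeZero b] (p : ZMod a × ZMod b) (U : Lk a b l → G) :
    wS w (fun _ => 0) (fun e => U (shL p e)) = wS w (fun _ => 0) U := by
  unfold wS
  rw [nbE_sh]
  congr 1
  refine Eq.trans ?_ (Equiv.prod_comp (Equiv.addRight p) fun u => Real.exp (-bsE w 0 U u))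
  refine Finset.prod_congr rfl fun u _ => ?_
  rw [bsE_sh]
  rfl

variable [MeasurableSpace G] [MeasurableMul₂ G] [MeasurableInv G] {μ : Measure G}
  [IsProbabilityMeasure μ]

/-- translations in the true theory -/
theorem XT_sh {a b : ℕ} [NeZero a] [NeZero b] (hb : w.Bd) {H : (LkZ l → G) → ℝ} (hH : BM H)
    (p q : ℤ) :
    XT μ w (fun U : Lk a b l → G => H (perZ U)) =
      XT μ w (fun U : Lk a b l → G => H (fun e => perZ U (tz p q e))) := by
  unfold XT
  congr 1
  have h1 : MeasurePreserving (fun (U : Lk a b l → G) i =>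
      U (shL ((p : ZMod a), (q : ZMod b)) i)) (PM μ (Lk a b l)) (PM μ (Lk a b l)) :=
    FS.mp_comp (μ := μ) (shL ((p : ZMod a), (q : ZMod b)))
  have h2 : BM fun U : Lk a b l → G => H (perZ U) := hH.comp perZ_meas
  conv_lhs => rw [← h1.map_eq]
  rw [integral_map h1.measurable.aemeasurable (h2.mul (wS_bm hb _)).1.aestronglyMeasurable]
  congr 1
  funext U
  rw [wS_sh]
  congr 2
  funext e
  unfold perZ tz
  simp only [shL_apply, shS_apply]
  push_cast
  rfl

/-- observables of the links with base points in the square `[-R, R]²` -/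
def InR (R : ℕ) (H : (LkZ l → G) → ℝ) : Prop :=
  ∀ V V' : LkZ l → G, (∀ e : LkZ l, |e.1.1.1| ≤ R → |e.1.1.2| ≤ R → V e = V' e) → H V = H V'

/-- **The expectations of all local observables in the true theory converge** along all even
tori whose sides tend to infinity. -/
theorem XT_cauchyZ [μ.IsInvInvariant] [μ.IsMulLeftInvariant] (hb : w.Bd) (hw : w.Sy)
    (h : Cn w z) {a : ℕ} (ha : 1 ≤ a) {s : ℝ} (hs0 : 0 < s) (hs : s ≤ 1 / 2)
    (hcr : CrS μ w a s) (R : ℕ) {η : ℝ} (hη : 0 < η) :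
    ∃ n₀ : ℕ, ∀ H : (LkZ l → G) → ℝ, Measurable H → (∀ V, |H V| ≤ 1) → InR R H →
      ∀ (c b c' b' : ℕ) [NeZero c] [NeZero b] [NeZero c'] [NeZero b'], n₀ ≤ c → n₀ ≤ b →
        n₀ ≤ c' → n₀ ≤ b' → Even c → Even b → Even c' → Even b' →
        |XT μ w (fun U : Lk c b l → G => H (perZ U)) -
          XT μ w (fun U : Lk c' b' l → G => H (perZ U))| ≤ η := by
  obtain ⟨n₀, hn₀⟩ := XT_cauchy (μ := μ) hb hw h ha hs0 hs hcr (2 * R + 1) hη
  refine ⟨n₀, fun H hHm hH1 hHR c b c' b' _ _ _ _ hc hbb hc' hb' ec eb ec' eb' => ?_⟩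
  set H' : (LkN l → G) → ℝ := fun V => H fun e =>
    V ((((e.1.1.1 + R).toNat, (e.1.1.2 + R).toNat), e.1.2), e.2) with hH'
  have hm : Measurable H' := hHm.comp (measurable_pi_iff.2 fun _ => measurable_pi_apply _)
  have hL : Lw (2 * R + 1) H' := by
    intro V V' hV
    refine hHR _ _ fun e h1 h2 => ?_
    rw [abs_le] at h1 h2
    exact hV _ (by simp only; omega) (by simp only; omega)
  have key : ∀ (c b : ℕ) [NeZero c] [NeZero b],
      XT μ w (fun U : Lk c b l → G => H (perZ U)) =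
        XT μ w (fun U : Lk c b l → G => H' (Tru.rd U)) := by
    intro c b _ _
    -- read the window translated by `-R`
    have h1 := XT_sh (μ := μ) (a := c) (b := b) (w := w) hb (H := H) ⟨hHm, 1, hH1⟩ R R
    rw [h1]
    congr 1
    funext U
    refine hHR _ _ fun e h1 h2 => ?_
    rw [abs_le] at h1 h2
    unfold perZ tz Tru.rd
    simp only
    have e1 : (((e.1.1.1 + R : ℤ)) : ZMod c) = (((e.1.1.1 + R).toNat : ℕ) : ZMod c) := by
      conv_lhs => rw [← Int.toNat_of_nonneg (show 0 ≤ e.1.1.1 + R by omega)]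
      rw [Int.cast_natCast]
    have e2 : (((e.1.1.2 + R : ℤ)) : ZMod b) = (((e.1.1.2 + R).toNat : ℕ) : ZMod b) := by
      conv_lhs => rw [← Int.toNat_of_nonneg (show 0 ≤ e.1.1.2 + R by omega)]
      rw [Int.cast_natCast]
    rw [e1, e2]
  rw [key c b, key c' b']
  exact hn₀ H' hm (fun V => hH1 _) hL c b c' b' hc hbb hc' hb' ec eb ec' eb'

end Run7.h182.Unq
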