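import Pool.Agent.Run7.h182.Stp
import Pool.Agent.Run7.h897.TW.Size

/-!
# The basic step for helper897's chain, and the size independence without hypotheses
-/

set_option linter.unusedSectionVars false
set_option linter.unusedVariables false

open MeasureTheory Filter Topology

namespace Run7.h182.Wl

open Pool.Agent.Run7.h897 Pool.Agent.Run7.h897.TW
open Pool.Agent.Run7.h897.FS (BM)

variable {N l : ℕ} {G : Type*} [Group G] [NeZero N] [NeZero l] {w : Ens N l G}
  [MeasurableSpace G] [MeasurableMul₂ G] [MeasurableInv G] {μ : Measure G}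
  [IsProbabilityMeasure μ] [μ.IsInvInvariant]

/-- The step (W). -/
theorem wl (w : Ens N l G) (hb : w.Bd) (hw : w.Sy) : WL μ w := by
  intro r s₀ m n n' a a' b _ _ _ hr hs0 hbm han han' h1 h1' x hx H C hH hC hW
  exact Stp.XE_step hb hw a a' b hr hs0 hbm han han' h1 h1' hx hH hC hW

/-- The independence of the size, uniformly in the ensembles which satisfy the criterion. -/
theorem size {a : ℕ} (ha : 1 ≤ a) {s : ℝ} (hs0 : 0 < s) (hs : s ≤ 1 / 2) (W : ℕ) {η : ℝ}
    (hη : 0 < η) :
    ∃ n₀ : ℕ, ∀ w : Ens N l G, w.Bd → w.Sy → CrS μ w a s →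
      ∀ H : (((ℕ × ℕ) × (ZMod l × ZMod l)) × Fin 4 → G) → ℝ, Measurable H → (∀ V, |H V| ≤ 1) →
      (∀ V V', (∀ e, e.1.1.1 < W → e.1.1.2 < W → V e = V' e) → H V = H V') →
      ∀ (c b c' b' : ℕ) [NeZero c] [NeZero b] [NeZero c'] [NeZero b'], n₀ ≤ c → n₀ ≤ b →
        n₀ ≤ c' → n₀ ≤ b' → Even c → Even b → Even c' → Even b' →
        |XE μ w (fun U : Lk c b l → G => H (rd c b l U)) -
          XE μ w (fun U : Lk c' b' l → G => H (rd c' b' l U))| ≤ η :=
  size_all (fun w hb hw => wl w hb hw) ha hs0 hs W hη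

end Run7.h182.Wl
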