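import Mathlib

/-! The number of centre vortices is blind to the boundary condition up to an exponentially
small error: Fourier analysis on `ZMod N`. -/

namespace Run7.h182

open Finset

/-- `N 1[x = 0]` as a sum of characters. -/
theorem ind_char {N : ℕ} [NeZero N] (x : ZMod N) :
    (∑ q : ZMod N, ZMod.stdAddChar (q * x) : ℂ) = if x = 0 then (N : ℂ) else 0 := by
  have h := AddChar.sum_mulShift (R := ZMod N) (R' := ℂ) x (ZMod.isPrimitive_stdAddChar N)
  simpa [ZMod.card] using h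

/-- A character turns sums into products. -/
theorem map_char_sum {A : Type*} [AddCommMonoid A] (χ : AddChar A ℂ) {ι : Type*}
    (s : Finset ι) (f : ι → A) : χ (∑ i ∈ s, f i) = ∏ i ∈ s, χ (f i) := by
  classical
  induction s using Finset.induction_on with
  | empty => simp
  | insert a s ha ih => rw [Finset.sum_insert ha, Finset.prod_insert ha, AddChar.map_add_eq_mul, ih]

/-- One site: the nonzero Fourier modes of a distribution bounded below by `ε` times the
uniform one are at most `1 - ε` of the mass. -/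
theorem one_site {N : ℕ} [NeZero N] (p : ZMod N → ℝ) (eps : ℝ)
    (hp : ∀ n, eps / N * ∑ m, p m ≤ p n) {q : ZMod N} (hq : q ≠ 0) :
    ‖∑ n : ZMod N, (ZMod.stdAddChar (q * n) : ℂ) * (p n : ℂ)‖ ≤ (1 - eps) * ∑ n, p n := by
  set S : ℝ := ∑ n, p n with hS
  have hN : (N : ℝ) ≠ 0 := by exact_mod_cast NeZero.ne N
  have h0 : (∑ n : ZMod N, (ZMod.stdAddChar (q * n) : ℂ)) = 0 := by
    have h := ind_char q
    rw [if_neg hq] at h
    rw [← h]
    refine Finset.sum_congr rfl fun n _ => ?_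
    rw [mul_comm]
  have h1 : (∑ n : ZMod N, (ZMod.stdAddChar (q * n) : ℂ) * (p n : ℂ))
      = ∑ n : ZMod N, (ZMod.stdAddChar (q * n) : ℂ) * ((p n - eps / N * S : ℝ) : ℂ) := by
    have : ∀ n : ZMod N, (ZMod.stdAddChar (q * n) : ℂ) * ((p n - eps / N * S : ℝ) : ℂ)
        = (ZMod.stdAddChar (q * n) : ℂ) * (p n : ℂ)
          - (ZMod.stdAddChar (q * n) : ℂ) * ((eps / N * S : ℝ) : ℂ) := by
      intro n
      push_cast
      ring
    rw [Finset.sum_congr rfl fun n _ => this n, Finset.sum_sub_distrib, ← Finset.sum_mul, h0]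
    simp
  rw [h1]
  refine (norm_sum_le _ _).trans ?_
  have h2 : ∀ n : ZMod N, ‖(ZMod.stdAddChar (q * n) : ℂ) * ((p n - eps / N * S : ℝ) : ℂ)‖
      = p n - eps / N * S := by
    intro n
    have hn : ‖(ZMod.stdAddChar (q * n) : ℂ)‖ = 1 := by
      simp
    rw [norm_mul, hn, one_mul, Complex.norm_real, Real.norm_of_nonneg (by linarith [hp n])]
  rw [Finset.sum_congr rfl fun n _ => h2 n, Finset.sum_sub_distrib, ← hS]
  simp only [Finset.sum_const, Finset.card_univ, ZMod.card, nsmul_eq_mul]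
  have : (N : ℝ) * (eps / N * S) = eps * S := by
    field_simp
  rw [this]
  linarith

/-- The constrained sum over the centre variables is `1/N` of the free one up to an
exponentially small relative error. -/
theorem fourier_sum {ι : Type*} [Fintype ι] [DecidableEq ι] {N : ℕ} [NeZero N]
    (p : ι → ZMod N → ℝ) (eps : ℝ) (he0 : 0 ≤ eps) (he1 : eps ≤ 1)
    (hp : ∀ u n, eps / N * ∑ m, p u m ≤ p u n) (h0 : ∀ u n, 0 ≤ p u n) :
    |N * (∑ s : ι → ZMod N, if ∑ u, s u = 0 then ∏ u, p u (s u) else 0) - ∏ u, ∑ n, p u n|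
      ≤ N * (1 - eps) ^ (Fintype.card ι) * ∏ u, ∑ n, p u n := by
  classical
  have hP : 0 ≤ ∏ u, ∑ n, p u n :=
    Finset.prod_nonneg fun u _ => Finset.sum_nonneg fun n _ => h0 u n
  -- the exact Fourier formula
  have key : ((N * (∑ s : ι → ZMod N, if ∑ u, s u = 0 then ∏ u, p u (s u) else 0) : ℝ) : ℂ)
      = ∑ q : ZMod N, ∏ u, ∑ n : ZMod N, (ZMod.stdAddChar (q * n) : ℂ) * (p u n : ℂ) := by
    have h1 : ∀ q : ZMod N, ∏ u, ∑ n : ZMod N, (ZMod.stdAddChar (q * n) : ℂ) * (p u n : ℂ)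
        = ∑ s : ι → ZMod N, ZMod.stdAddChar (q * ∑ u, s u) * ∏ u, (p u (s u) : ℂ) := by
      intro q
      rw [Finset.prod_univ_sum]
      simp only [Fintype.piFinset_univ]
      refine Finset.sum_congr rfl fun s _ => ?_
      rw [Finset.prod_mul_distrib, Finset.mul_sum]
      congr 1
      exact (map_char_sum ZMod.stdAddChar Finset.univ (fun u => q * s u)).symm
    rw [Finset.sum_congr rfl fun q _ => h1 q, Finset.sum_comm]
    push_cast
    rw [Finset.mul_sum]
    refine Finset.sum_congr rfl fun s _ => ?_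
    rw [← Finset.sum_mul, ind_char]
    split_ifs <;> simp
  have h2 : (∑ q : ZMod N, ∏ u, ∑ n : ZMod N, (ZMod.stdAddChar (q * n) : ℂ) * (p u n : ℂ))
      = ((∏ u, ∑ n, p u n : ℝ) : ℂ)
        + ∑ q ∈ Finset.univ.erase (0 : ZMod N),
            ∏ u, ∑ n : ZMod N, (ZMod.stdAddChar (q * n) : ℂ) * (p u n : ℂ) := by
    rw [← Finset.add_sum_erase _ _ (Finset.mem_univ (0 : ZMod N))]
    congr 1
    push_cast
    refine Finset.prod_congr rfl fun u _ => Finset.sum_congr rfl fun n _ => ?_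
    simp
  have h3 : ‖∑ q ∈ Finset.univ.erase (0 : ZMod N),
      ∏ u, ∑ n : ZMod N, (ZMod.stdAddChar (q * n) : ℂ) * (p u n : ℂ)‖
      ≤ N * ((1 - eps) ^ (Fintype.card ι) * ∏ u, ∑ n, p u n) := by
    refine (norm_sum_le _ _).trans ?_
    have h4 : ∀ q ∈ Finset.univ.erase (0 : ZMod N),
        ‖∏ u, ∑ n : ZMod N, (ZMod.stdAddChar (q * n) : ℂ) * (p u n : ℂ)‖
          ≤ (1 - eps) ^ (Fintype.card ι) * ∏ u, ∑ n, p u n := by
      intro q hq
      rw [Finset.mem_erase] at hq
      rw [norm_prod]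
      refine (Finset.prod_le_prod (fun u _ => norm_nonneg _)
        fun u _ => one_site (p u) eps (hp u) hq.1).trans ?_
      rw [Finset.prod_mul_distrib, Finset.prod_const, Finset.card_univ]
    refine (Finset.sum_le_sum h4).trans ?_
    rw [Finset.sum_const, nsmul_eq_mul]
    refine mul_le_mul_of_nonneg_right ?_ (mul_nonneg (pow_nonneg (by linarith) _) hP)
    have : (Finset.univ.erase (0 : ZMod N)).card ≤ N := by
      refine (Finset.card_erase_le).trans ?_
      simp [ZMod.card]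
    exact_mod_cast this
  have h5 : ((N * (∑ s : ι → ZMod N, if ∑ u, s u = 0 then ∏ u, p u (s u) else 0)
      - ∏ u, ∑ n, p u n : ℝ) : ℂ)
      = ∑ q ∈ Finset.univ.erase (0 : ZMod N),
            ∏ u, ∑ n : ZMod N, (ZMod.stdAddChar (q * n) : ℂ) * (p u n : ℂ) := by
    rw [Complex.ofReal_sub, key, h2]
    ring
  rw [← Real.norm_eq_abs, ← Complex.norm_real, h5, mul_assoc]
  exact h3

end Run7.h182
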