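import Pool.Agent.Run7.h897.FS.Fm

/-!
# Size independence of ring expectations

For a symmetric positive kernel semigroup `k` and a window kernel `L` dominated by `C k_w`,
the normalised expectation `Tr (L T^q) / Tr T^(w+q)` does not depend on `q` up to
`8 C exp (2x) √x`, `x` the finite size correction of the partition function.
-/

set_option linter.unusedSectionVars false
set_option linter.unusedVariables false

open MeasureTheory Filter Topology

namespace Run7.h182.Siz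

open Pool.Agent.Run7.h897.FS

variable {X : Type*} [MeasurableSpace X] {μ : Measure X} [IsProbabilityMeasure μ]

/-! ### the algebra of bounded kernels -/

/-- composition of kernels -/
noncomputable def cp (μ : Measure X) (A B : X → X → ℝ) : X → X → ℝ :=
  fun x y => ∫ u, A x u * B u y ∂μ

/-- trace of a kernel -/
noncomputable def tr (μ : Measure X) (A : X → X → ℝ) : ℝ := ∫ x, A x x ∂μ

/-- bounded measurable kernels -/
def BK (A : X → X → ℝ) : Prop := BM (Function.uncurry A)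

variable {A B C D : X → X → ℝ}

lemma BK.c2 {Y : Type*} [MeasurableSpace Y] (hA : BK A) {f g : Y → X} (hf : Measurable f)
    (hg : Measurable g) : BM fun y => A (f y) (g y) :=
  BM.comp hA (hf.prodMk hg)

lemma BK.l (hA : BK A) (x : X) : BM fun y => A x y :=
  hA.c2 measurable_const measurable_id

lemma BK.r (hA : BK A) (y : X) : BM fun x => A x y :=
  hA.c2 measurable_id measurable_const

lemma cp_bk (hA : BK A) (hB : BK B) : BK (cp μ A B) := by
  have h1 : BM fun w : (X × X) × X => A w.1.1 w.2 * B w.2 w.1.2 :=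
    (hA.c2 measurable_fst.fst measurable_snd).mul (hB.c2 measurable_snd measurable_fst.snd)
  exact h1.intg (ν := μ)

lemma cp_assoc (hA : BK A) (hB : BK B) (hC : BK C) :
    cp μ (cp μ A B) C = cp μ A (cp μ B C) := by
  funext x y
  unfold cp
  have e1 : ∀ u, (∫ v, A x v * B v u ∂μ) * C u y = ∫ v, A x v * B v u * C u y ∂μ :=
    fun u => (integral_mul_const _ _).symm
  have e2 : ∀ v, A x v * ∫ u, B v u * C u y ∂μ = ∫ u, A x v * (B v u * C u y) ∂μ :=
    fun v => (integral_const_mul _ _).symm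
  simp only [e1, e2]
  rw [swp]
  · congr 1
    funext v
    congr 1
    funext u
    ring
  · exact ((((hA.l x).comp measurable_snd)).mul (hB.c2 measurable_snd measurable_fst)).mul
      ((hC.r y).comp measurable_fst)

lemma tr_comm (hA : BK A) (hB : BK B) : tr μ (cp μ A B) = tr μ (cp μ B A) := by
  unfold tr cp
  rw [swp]
  · congr 1
    funext x
    congr 1
    funext y
    ring
  · exact (hA.c2 measurable_fst measurable_snd).mul (hB.c2 measurable_snd measurable_fst)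

/-- Schwarz inequality in the Hilbert-Schmidt norm -/
lemma tr_sq (hA : BK A) (hB : BK B) :
    tr μ (cp μ A B) ^ 2 ≤ (∫ x, ∫ y, A x y ^ 2 ∂μ ∂μ) * ∫ x, ∫ y, B x y ^ 2 ∂μ ∂μ := by
  have b1 : BM fun z : X × X => A z.1 z.2 := hA.c2 measurable_fst measurable_snd
  have b2 : BM fun z : X × X => B z.2 z.1 := hB.c2 measurable_snd measurable_fst
  have h1 : tr μ (cp μ A B) = ∫ z : X × X, A z.1 z.2 * B z.2 z.1 ∂(μ.prod μ) := by
    rw [fub (b1.mul b2)]
    rfl
  have h2 : ∫ x, ∫ y, A x y ^ 2 ∂μ ∂μ = ∫ z : X × X, A z.1 z.2 ^ 2 ∂(μ.prod μ) := by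
    rw [fub (b1.pow 2)]
  have h3 : ∫ x, ∫ y, B x y ^ 2 ∂μ ∂μ = ∫ z : X × X, B z.2 z.1 ^ 2 ∂(μ.prod μ) := by
    rw [fub (b2.pow 2)]
    refine swp ?_
    exact (hB.c2 measurable_fst measurable_snd).pow 2
  rw [h1, h2, h3]
  exact schwarz b1 b2

/-- domination is preserved by composition -/
lemma cp_dom {A' B' : X → X → ℝ} (hA : BK A) (hB : BK B) (hA' : BK A') (hB' : BK B')
    {c d : ℝ} (h1 : ∀ x y, |A x y| ≤ c * A' x y) (h2 : ∀ x y, |B x y| ≤ d * B' x y)
    (x y : X) : |cp μ A B x y| ≤ (c * d) * cp μ A' B' x y := by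
  unfold cp
  rw [← integral_const_mul]
  refine abs_integral_le_integral_abs.trans ?_
  refine integral_mono ((hA.l x).mul (hB.r y)).int.abs
    ((BM.const _).mul ((hA'.l x).mul (hB'.r y))).int fun u => ?_
  simp only [abs_mul]
  calc |A x u| * |B u y| ≤ (c * A' x u) * (d * B' u y) :=
        mul_le_mul (h1 x u) (h2 u y) (abs_nonneg _) ((abs_nonneg _).trans (h1 x u))
    _ = c * d * (A' x u * B' u y) := by ring

/-! ### two copies -/

/-- the product kernel -/
def dk (A B : X → X → ℝ) (z z' : X × X) : ℝ := A z.1 z'.1 * B z.2 z'.2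

/-- the product kernel with the end points exchanged -/
def dx (A B : X → X → ℝ) (z z' : X × X) : ℝ := A z.1 z'.2 * B z.2 z'.1

lemma dk_bk (hA : BK A) (hB : BK B) : BK (dk A B) :=
  BM.mul (hA.c2 measurable_fst.fst measurable_snd.fst)
    (hB.c2 measurable_fst.snd measurable_snd.snd)

lemma dx_bk (hA : BK A) (hB : BK B) : BK (dx A B) :=
  BM.mul (hA.c2 measurable_fst.fst measurable_snd.snd)
    (hB.c2 measurable_fst.snd measurable_snd.fst)

lemma tr_dk (hA : BK A) (hB : BK B) (hC : BK C) (hD : BK D) :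
    tr (μ.prod μ) (cp (μ.prod μ) (dk A B) (dk C D)) = tr μ (cp μ A C) * tr μ (cp μ B D) := by
  have h1 : ∀ z : X × X, cp (μ.prod μ) (dk A B) (dk C D) z z =
      cp μ A C z.1 z.1 * cp μ B D z.2 z.2 := by
    intro z
    unfold cp dk
    rw [← prod2 ((hA.l _).mul (hC.r _)) ((hB.l _).mul (hD.r _))]
    congr 1
    funext w
    ring
  unfold tr
  simp only [h1]
  exact prod2 ((cp_bk hA hC).c2 measurable_id measurable_id)
    ((cp_bk hB hD).c2 measurable_id measurable_id)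

lemma tr_dx (hA : BK A) (hB : BK B) (hC : BK C) (hD : BK D) :
    tr (μ.prod μ) (cp (μ.prod μ) (dk A B) (dx C D)) =
      tr μ (cp μ (cp μ A C) (cp μ B D)) := by
  have h1 : ∀ z : X × X, cp (μ.prod μ) (dk A B) (dx C D) z z =
      cp μ A C z.1 z.2 * cp μ B D z.2 z.1 := by
    intro z
    unfold cp dk dx
    rw [← prod2 ((hA.l _).mul (hC.r _)) ((hB.l _).mul (hD.r _))]
    congr 1
    funext w
    ring
  have b : BM fun z : X × X => cp μ A C z.1 z.2 * cp μ B D z.2 z.1 :=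
    BM.mul ((cp_bk hA hC).c2 measurable_fst measurable_snd)
      ((cp_bk hB hD).c2 measurable_snd measurable_fst)
  have h2 : tr (μ.prod μ) (cp (μ.prod μ) (dk A B) (dx C D)) =
      ∫ z : X × X, cp μ A C z.1 z.2 * cp μ B D z.2 z.1 ∂(μ.prod μ) := by
    unfold tr
    simp only [h1]
  rw [h2, fub b]
  rfl

lemma dk_sq (hA : BK A) (hB : BK B) :
    ∫ z, ∫ z', dk A B z z' ^ 2 ∂(μ.prod μ) ∂(μ.prod μ) =
      (∫ x, ∫ y, A x y ^ 2 ∂μ ∂μ) * ∫ x, ∫ y, B x y ^ 2 ∂μ ∂μ := by
  have h1 : ∀ z : X × X, ∫ z', dk A B z z' ^ 2 ∂(μ.prod μ) =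
      (∫ y, A z.1 y ^ 2 ∂μ) * ∫ y, B z.2 y ^ 2 ∂μ := by
    intro z
    rw [← prod2 ((hA.l _).pow 2) ((hB.l _).pow 2)]
    congr 1
    funext w
    unfold dk
    ring
  simp only [h1]
  exact prod2 (BM.intg (hA.pow 2)) (BM.intg (hB.pow 2))

/-! ### the kernel semigroup -/

variable {k : ℕ → X → X → ℝ}

lemma sem (h : KS μ k) {m n : ℕ} (hm : 1 ≤ m) (hn : 1 ≤ n) : cp μ (k m) (k n) = k (m + n) := by
  funext x y
  exact (h.semi m n hm hn x y).symm

lemma kb (h : KS μ k) {n : ℕ} (hn : 1 ≤ n) : BK (k n) := h.bm n hn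

/-- the trace of the window kernel times a power -/
noncomputable def TrL (μ : Measure X) (k : ℕ → X → X → ℝ) (L : X → X → ℝ) (q : ℕ) : ℝ :=
  ∫ x, ∫ y, L x y * k q y x ∂μ ∂μ

lemma TrL_eq (L : X → X → ℝ) (q : ℕ) : TrL μ k L q = tr μ (cp μ L (k q)) := rfl

/-- the exact formula for the defect -/
lemma defect (h : KS μ k) {L : X → X → ℝ} (hL : BK L) {s p1 p2 : ℕ} (hs : 1 ≤ s)
    (hp1 : 1 ≤ p1) (hp2 : 1 ≤ p2) :
    TrL μ k L (2 * s + p2) * A1 μ k (p1 + p2) (fun _ => 1) -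
        TrL μ k L (2 * s + p2 + (p1 + p2)) =
      2 * tr (μ.prod μ) (cp (μ.prod μ) (dk (cp μ (k s) (cp μ L (k s))) (k p1))
        (KD (-1) k p2)) := by
  set a := cp μ (k s) (cp μ L (k s)) with ha
  have hks := kb h hs
  have hk1 := kb h hp1
  have hk2 := kb h hp2
  have hLs : BK (cp μ L (k s)) := cp_bk hL hks
  have hab : BK a := cp_bk hks hLs
  have e : cp (μ.prod μ) (dk a (k p1)) (KD (-1) k p2) =
      fun z z' => 1 / 2 * (cp (μ.prod μ) (dk a (k p1)) (dk (k p2) (k p2)) z z' -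
        cp (μ.prod μ) (dk a (k p1)) (dx (k p2) (k p2)) z z') := by
    funext z z'
    unfold cp
    rw [← integral_sub, ← integral_const_mul]
    · congr 1
      funext u
      unfold KD dk dx
      ring
    · exact (BM.mul ((dk_bk hab hk1).l z) ((dk_bk hk2 hk2).r z')).int
    · exact (BM.mul ((dk_bk hab hk1).l z) ((dx_bk hk2 hk2).r z')).int
  have e2 : tr (μ.prod μ) (cp (μ.prod μ) (dk a (k p1)) (KD (-1) k p2)) =
      1 / 2 * (tr (μ.prod μ) (cp (μ.prod μ) (dk a (k p1)) (dk (k p2) (k p2))) -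
        tr (μ.prod μ) (cp (μ.prod μ) (dk a (k p1)) (dx (k p2) (k p2)))) := by
    rw [e]
    unfold tr
    rw [integral_const_mul, integral_sub]
    · exact ((cp_bk (dk_bk hab hk1) (dk_bk hk2 hk2)).c2 measurable_id measurable_id).int
    · exact ((cp_bk (dk_bk hab hk1) (dx_bk hk2 hk2)).c2 measurable_id measurable_id).int
  rw [e2, tr_dk hab hk1 hk2 hk2, tr_dx hab hk1 hk2 hk2]
  have t1 : ∀ {n : ℕ}, 1 ≤ n → tr μ (cp μ a (k n)) = TrL μ k L (2 * s + n) := by
    intro n hn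
    rw [TrL_eq, ha, cp_assoc hks hLs (kb h hn), tr_comm hks (cp_bk hLs (kb h hn)),
      cp_assoc hLs (kb h hn) hks, sem h hn hs, cp_assoc hL hks (kb h (by omega)),
      sem h hs (by omega)]
    congr 3
    ring
  have t2 : tr μ (cp μ (k p1) (k p2)) = A1 μ k (p1 + p2) (fun _ => 1) := by
    rw [sem h hp1 hp2]
    unfold tr A1
    simp
  have t3 : tr μ (cp μ (cp μ a (k p2)) (cp μ (k p1) (k p2))) =
      TrL μ k L (2 * s + p2 + (p1 + p2)) := by
    rw [sem h hp1 hp2, cp_assoc hab hk2 (kb h (by omega)), sem h hp2 (by omega), t1 (by omega)]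
    congr 1
    ring
  rw [t1 hp2, t2, t3]
  ring

section bounds

variable {E : ℕ → ℝ}

/-- the bound of the defect -/
lemma defect_le (h : KS μ k) (hE : TS E) (hEE : ∀ n, 1 ≤ n → EE μ k n = E n)
    {s0 : ℕ} (hs0 : 1 ≤ s0) {x : ℝ} (hx : psi E s0 ≤ x) {w : ℕ} (hw : 1 ≤ w)
    {L : X → X → ℝ} (hL : BK L) {C : ℝ} (hC0 : 0 ≤ C) (hC : ∀ x y, |L x y| ≤ C * k w x y)
    (hk : ∀ n, 1 ≤ n → ∀ x y, 0 ≤ k n x y)
    {s p1 p2 : ℕ} (hs : 1 ≤ s) (hws : s0 ≤ w + 2 * s) (hp1 : s0 ≤ p1) (hp2 : s0 ≤ p2) :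
    |TrL μ k L (2 * s + p2) * A1 μ k (p1 + p2) (fun _ => 1) -
        TrL μ k L (2 * s + p2 + (p1 + p2))| ≤
      2 * C * (Real.exp (2 * x) * √x) *
        Real.exp (((w + (2 * s + p2) + (p1 + p2) : ℕ) : ℝ) * (ell E / 2)) := by
  have hx0 : 0 ≤ x := (hE.psi_nonneg hs0).trans hx
  have hε : (-1 : ℝ) * (-1) = 1 := by norm_num
  set l := ell E with hl
  have hEexp : ∀ m, 1 ≤ m → E m = Real.exp (m * l + psi E m) := by
    intro m hm
    unfold psi
    rw [← hl, add_sub_cancel, Real.exp_log (hE.pos m hm)]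
  have hpsi : ∀ m, s0 ≤ m → psi E m ≤ x := fun m hm => (hE.psi_anti hs0 hm).trans hx
  have hEle : ∀ m, s0 ≤ m → E m ≤ Real.exp (m * l + x) := by
    intro m hm
    rw [hEexp m (by omega)]
    exact Real.exp_le_exp.2 (by linarith [hpsi m hm])
  have hminus : EE (μ.prod μ) (KD (-1) k) p2 ≤ Real.exp (p2 * l + x) ^ 2 * x := by
    have hm1 : 1 ≤ p2 := by omega
    rw [h.EE_KD hε hm1, hEE p2 hm1, hEE (2 * p2) (by omega)]
    have h1 := hE.dP_le hm1
    have h3 : E p2 ^ 2 ≤ Real.exp (p2 * l + x) ^ 2 :=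
      pow_le_pow_left₀ (hE.pos p2 hm1).le (hEle p2 hp2) 2
    have h4 : E (2 * p2) = E p2 ^ 2 * (1 - dP E p2) := by
      have := hE.pos p2 hm1
      unfold dP; field_simp; ring
    have h5 := hE.dP_nonneg hm1
    have h6 := hpsi p2 hp2
    rw [h4]
    have h7 : E p2 ^ 2 * dP E p2 ≤ Real.exp (p2 * l + x) ^ 2 * (2 * x) :=
      mul_le_mul h3 (by linarith) h5 (by positivity)
    nlinarith
  set a := cp μ (k s) (cp μ L (k s)) with ha
  have hks := kb h hs
  have hk1 := kb h (n := p1) (by omega)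
  have hLs : BK (cp μ L (k s)) := cp_bk hL hks
  have hab : BK a := cp_bk hks hLs
  -- pointwise domination of `T^s L T^s`
  have hdom : ∀ u v, |a u v| ≤ C * k (w + 2 * s) u v := by
    intro u v
    have d0 : ∀ u v, |k s u v| ≤ 1 * k s u v := fun u v => by
      rw [abs_of_nonneg (hk s hs u v), one_mul]
    have d1 : ∀ u v, |cp μ L (k s) u v| ≤ (C * 1) * cp μ (k w) (k s) u v :=
      cp_dom hL hks (kb h hw) hks hC d0
    have d2 := cp_dom (μ := μ) hks hLs hks (cp_bk (kb h hw) hks) d0 d1 u v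
    rw [sem h hw hs, sem h hs (by omega)] at d2
    rw [show w + 2 * s = s + (w + s) by ring]
    simpa using d2
  have hasq : ∫ u, ∫ v, a u v ^ 2 ∂μ ∂μ ≤ C ^ 2 * E (w + 2 * s) := by
    rw [← hEE (w + 2 * s) (by omega)]
    unfold EE
    rw [← integral_const_mul]
    refine integral_mono (BM.intg (hab.pow 2)).int
      (((BM.const _).mul (h.bsq (by omega))).int) fun u => ?_
    simp only
    rw [← integral_const_mul]
    refine integral_mono ((hab.l u).pow 2).int
      ((BM.const _).mul (((kb h (by omega)).l u).pow 2)).int fun v => ?_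
    simp only
    rw [← mul_pow, ← sq_abs]
    exact pow_le_pow_left₀ (abs_nonneg _) (hdom u v) 2
  have hsq := tr_sq (μ := μ.prod μ) (dk_bk hab hk1) ((h.dbl hε).bm p2 (by omega))
  rw [dk_sq hab hk1] at hsq
  have hkp1 : ∫ u, ∫ v, k p1 u v ^ 2 ∂μ ∂μ = E p1 := hEE p1 (by omega)
  rw [hkp1] at hsq
  set T := tr (μ.prod μ) (cp (μ.prod μ) (dk a (k p1)) (KD (-1) k p2)) with hT
  have hEE' : ∫ z, ∫ z', KD (-1) k p2 z z' ^ 2 ∂(μ.prod μ) ∂(μ.prod μ) =
      EE (μ.prod μ) (KD (-1) k) p2 := rfl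
  rw [hEE'] at hsq
  have hbig : T ^ 2 ≤ (C * (Real.exp (2 * x) * √x) *
      Real.exp (((w + (2 * s + p2) + (p1 + p2) : ℕ) : ℝ) * (l / 2))) ^ 2 := by
    calc T ^ 2 ≤ (∫ u, ∫ v, a u v ^ 2 ∂μ ∂μ) * E p1 * EE (μ.prod μ) (KD (-1) k) p2 := hsq
      _ ≤ (C ^ 2 * Real.exp ((w + 2 * s : ℕ) * l + x)) * Real.exp (p1 * l + x) *
            (Real.exp (p2 * l + x) ^ 2 * x) := by
          have g1 : ∫ u, ∫ v, a u v ^ 2 ∂μ ∂μ ≤
              C ^ 2 * Real.exp ((w + 2 * s : ℕ) * l + x) :=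
            hasq.trans (mul_le_mul_of_nonneg_left (hEle _ hws) (sq_nonneg _))
          have g2 := hEle p1 hp1
          have g3 : 0 ≤ E p1 := (hE.pos p1 (by omega)).le
          have g4 : 0 ≤ EE (μ.prod μ) (KD (-1) k) p2 := EE_nonneg _
          have g5 : (0 : ℝ) ≤ C ^ 2 * Real.exp ((w + 2 * s : ℕ) * l + x) := by positivity
          exact mul_le_mul (mul_le_mul g1 g2 g3 g5) hminus g4 (by positivity)
      _ = _ := by
          have e0 : (C * (Real.exp (2 * x) * √x) *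
              Real.exp (((w + (2 * s + p2) + (p1 + p2) : ℕ) : ℝ) * (l / 2))) ^ 2 =
              C ^ 2 * x * (Real.exp (2 * x) ^ 2 *
              Real.exp (((w + (2 * s + p2) + (p1 + p2) : ℕ) : ℝ) * (l / 2)) ^ 2) := by
            have := Real.sq_sqrt hx0
            linear_combination (C ^ 2 * (Real.exp (2 * x) ^ 2 *
              Real.exp (((w + (2 * s + p2) + (p1 + p2) : ℕ) : ℝ) * (l / 2)) ^ 2)) * this
          rw [e0, ← Real.exp_nat_mul, ← Real.exp_nat_mul, ← Real.exp_nat_mul, ← Real.exp_add]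
          have e1 : C ^ 2 * Real.exp ((w + 2 * s : ℕ) * l + x) * Real.exp (p1 * l + x) *
              (Real.exp ((2 : ℕ) * (p2 * l + x)) * x) =
              C ^ 2 * x * (Real.exp ((w + 2 * s : ℕ) * l + x) * Real.exp (p1 * l + x) *
              Real.exp ((2 : ℕ) * (p2 * l + x))) := by ring
          rw [e1, ← Real.exp_add, ← Real.exp_add]
          congr 2
          push_cast
          ring
  have hle := abs_le_of_sq_le_sq hbig (by positivity)
  rw [defect h hL hs (by omega) (by omega), ← ha, ← hT, abs_mul, abs_two]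
  calc 2 * |T| ≤ 2 * (C * (Real.exp (2 * x) * √x) *
      Real.exp (((w + (2 * s + p2) + (p1 + p2) : ℕ) : ℝ) * (l / 2))) :=
        mul_le_mul_of_nonneg_left hle (by norm_num)
    _ = _ := by ring

/-- one step: the sizes `q` and `q + p` -/
lemma step (h : KS μ k) (hE : TS E) (hEE : ∀ n, 1 ≤ n → EE μ k n = E n)
    {s0 : ℕ} (hs0 : 1 ≤ s0) {x : ℝ} (hx : psi E s0 ≤ x) {w : ℕ} (hw : 1 ≤ w)
    {L : X → X → ℝ} (hL : BK L) {C : ℝ} (hC0 : 0 ≤ C) (hC : ∀ x y, |L x y| ≤ C * k w x y)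
    (hk : ∀ n, 1 ≤ n → ∀ x y, 0 ≤ k n x y)
    {q p : ℕ} (hq : 2 * s0 + 1 ≤ q) (hp : 2 * s0 + 1 ≤ p) (hqe : Even (w + q)) (hpe : Even p) :
    |TrL μ k L q / A1 μ k (w + q) (fun _ => 1) -
        TrL μ k L (q + p) / A1 μ k (w + (q + p)) (fun _ => 1)| ≤
      4 * C * (Real.exp (2 * x) * √x) := by
  have hx0 : 0 ≤ x := (hE.psi_nonneg hs0).trans hx
  set l := ell E with hl
  set Z : ℕ → ℝ := fun n => A1 μ k n (fun _ => 1) with hZ
  have hZE : ∀ n, 1 ≤ n → Z (n + n) = E n := by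
    intro n hn
    rw [← hEE n hn, h.EE_diag hn, hZ]
    unfold A1
    simp
  have hZlow : ∀ n : ℕ, 1 ≤ n → Even n → Real.exp (n * (l / 2)) ≤ Z n := by
    intro n hn he
    obtain ⟨m, rfl⟩ := he
    have hm : 1 ≤ m := by omega
    rw [hZE m hm]
    have h1 : E m = Real.exp (m * l + psi E m) := by
      unfold psi
      rw [← hl, add_sub_cancel, Real.exp_log (hE.pos m hm)]
    rw [h1]
    refine Real.exp_le_exp.2 ?_
    have := hE.psi_nonneg hm
    push_cast
    linarith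
  -- the choice of the splitting
  obtain ⟨p2, s, hp2, hs1, hqs, hp2'⟩ : ∃ p2 s, s0 ≤ p2 ∧ 1 ≤ s ∧ 2 * s + p2 = q ∧ p2 ≤ s0 + 1 := by
    rcases Nat.even_or_odd (q - s0) with he | ho
    · obtain ⟨m, hm⟩ := he
      exact ⟨s0, m, le_rfl, by omega, by omega, by omega⟩
    · obtain ⟨m, hm⟩ := ho
      exact ⟨s0 + 1, m, by omega, by omega, by omega, le_rfl⟩
  obtain ⟨p1, hp1, hp1'⟩ : ∃ p1, p1 + p2 = p ∧ s0 ≤ p1 := ⟨p - p2, by omega, by omega⟩
  have hZp : Real.exp (p * (l / 2)) ≤ Z p := hZlow p (by omega) hpe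
  have hZq : Real.exp (((w + q : ℕ) : ℝ) * (l / 2)) ≤ Z (w + q) := hZlow _ (by omega) hqe
  have hZr : 0 < Z (w + (q + p)) := (Real.exp_pos _).trans_le
    (hZlow (w + (q + p)) (by omega) (by rw [← add_assoc]; exact hqe.add hpe))
  have hZq0 := (Real.exp_pos _).trans_le hZq
  have hZp0 := (Real.exp_pos _).trans_le hZp
  set e := Real.exp (2 * x) * √x with he
  have he0 : 0 ≤ e := by positivity
  -- the two defects
  have d1 : |TrL μ k L q * Z p - TrL μ k L (q + p)| ≤ 2 * C * e * (Z (w + q) * Z p) := by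
    have h1 := defect_le h hE hEE hs0 hx hw hL hC0 hC hk hs1 (p1 := p1) (p2 := p2)
      (by omega) hp1' hp2
    rw [hqs, hp1] at h1
    refine h1.trans ?_
    refine mul_le_mul_of_nonneg_left ?_ (by positivity)
    rw [show ((w + q + p : ℕ) : ℝ) * (l / 2) = ((w + q : ℕ) : ℝ) * (l / 2) + p * (l / 2) by
      push_cast; ring, Real.exp_add]
    exact mul_le_mul hZq hZp (Real.exp_pos _).le hZq0.le
  have d2 : |Z (w + q) * Z p - Z (w + (q + p))| ≤ 2 * e * (Z (w + q) * Z p) := by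
    have h1 := defect_le h hE hEE hs0 hx hw (kb h hw) zero_le_one
      (fun u v => by rw [abs_of_nonneg (hk w hw u v), one_mul]) hk hs1 (p1 := p1) (p2 := p2)
      (by omega) hp1' hp2
    rw [hqs, hp1] at h1
    have t : ∀ n, 1 ≤ n → TrL μ k (k w) n = Z (w + n) := by
      intro n hn
      rw [TrL_eq, sem h hw hn, hZ]
      unfold tr A1
      simp
    rw [t q (by omega), t (q + p) (by omega)] at h1
    refine h1.trans ?_
    rw [mul_one]
    refine mul_le_mul_of_nonneg_left ?_ (by positivity)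
    rw [show ((w + q + p : ℕ) : ℝ) * (l / 2) = ((w + q : ℕ) : ℝ) * (l / 2) + p * (l / 2) by
      push_cast; ring, Real.exp_add]
    exact mul_le_mul hZq hZp (Real.exp_pos _).le hZq0.le
  have d3 : |TrL μ k L (q + p)| ≤ C * Z (w + (q + p)) := by
    have hqp : 1 ≤ q + p := by omega
    have b1 : BM fun z : X × X => L z.1 z.2 * k (q + p) z.2 z.1 :=
      BM.mul (hL.c2 measurable_fst measurable_snd)
        ((kb h hqp).c2 measurable_snd measurable_fst)
    have b2 : BM fun z : X × X => k w z.1 z.2 * k (q + p) z.2 z.1 :=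
      BM.mul ((kb h hw).c2 measurable_fst measurable_snd)
        ((kb h hqp).c2 measurable_snd measurable_fst)
    have h1 : TrL μ k L (q + p) = ∫ z : X × X, L z.1 z.2 * k (q + p) z.2 z.1 ∂(μ.prod μ) := by
      rw [fub b1]
      rfl
    have h2 : Z (w + (q + p)) = ∫ z : X × X, k w z.1 z.2 * k (q + p) z.2 z.1 ∂(μ.prod μ) := by
      rw [fub b2, hZ]
      simp only [A1, one_mul]
      rw [← sem h hw hqp]
      rfl
    rw [h1, h2, ← integral_const_mul]
    refine abs_integral_le_integral_abs.trans ?_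
    refine integral_mono b1.int.abs ((BM.const _).mul b2).int fun z => ?_
    simp only [abs_mul, abs_of_nonneg (hk (q + p) hqp z.2 z.1)]
    rw [← mul_assoc]
    exact mul_le_mul_of_nonneg_right (hC _ _) (hk _ hqp _ _)
  have hsplit : TrL μ k L q / Z (w + q) - TrL μ k L (q + p) / Z (w + (q + p)) =
      ((TrL μ k L q * Z p - TrL μ k L (q + p)) * Z (w + (q + p)) -
        TrL μ k L (q + p) * (Z (w + q) * Z p - Z (w + (q + p)))) /
        ((Z (w + q) * Z p) * Z (w + (q + p))) := by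
    field_simp
    ring
  change |TrL μ k L q / Z (w + q) - TrL μ k L (q + p) / Z (w + (q + p))| ≤ 4 * C * e
  rw [hsplit, abs_div, abs_of_pos (a := (Z (w + q) * Z p) * Z (w + (q + p))) (by positivity),
    div_le_iff₀ (by positivity)]
  calc |(TrL μ k L q * Z p - TrL μ k L (q + p)) * Z (w + (q + p)) -
        TrL μ k L (q + p) * (Z (w + q) * Z p - Z (w + (q + p)))|
      ≤ |TrL μ k L q * Z p - TrL μ k L (q + p)| * Z (w + (q + p)) +
        |TrL μ k L (q + p)| * |Z (w + q) * Z p - Z (w + (q + p))| := by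
        refine (abs_sub _ _).trans (le_of_eq ?_)
        rw [abs_mul, abs_mul, abs_of_pos hZr]
    _ ≤ (2 * C * e * (Z (w + q) * Z p)) * Z (w + (q + p)) +
        (C * Z (w + (q + p))) * (2 * e * (Z (w + q) * Z p)) := by
        gcongr
    _ = 4 * C * e * (Z (w + q) * Z p * Z (w + (q + p))) := by ring

/-- **Size independence**: normalised expectations of a window observable on rings of two
different lengths agree up to `8 C e^{2x} √x`. -/
theorem size_ind (h : KS μ k) (hE : TS E) (hEE : ∀ n, 1 ≤ n → EE μ k n = E n)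
    {s0 : ℕ} (hs0 : 1 ≤ s0) {x : ℝ} (hx : psi E s0 ≤ x) {w : ℕ} (hw : 1 ≤ w)
    {L : X → X → ℝ} (hL : BK L) {C : ℝ} (hC0 : 0 ≤ C) (hC : ∀ x y, |L x y| ≤ C * k w x y)
    (hk : ∀ n, 1 ≤ n → ∀ x y, 0 ≤ k n x y)
    {q q' : ℕ} (hq : 2 * s0 + 1 ≤ q) (hq' : 2 * s0 + 1 ≤ q') (hqe : Even (w + q))
    (hqe' : Even (w + q')) :
    |TrL μ k L q / A1 μ k (w + q) (fun _ => 1) -
        TrL μ k L q' / A1 μ k (w + q') (fun _ => 1)| ≤
      8 * C * (Real.exp (2 * x) * √x) := by
  obtain ⟨p, p', hp, hp', he, he', hpp⟩ : ∃ p p', 2 * s0 + 1 ≤ p ∧ 2 * s0 + 1 ≤ p' ∧ Even p ∧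
      Even p' ∧ q + p = q' + p' := by
    rcases le_total q q' with hle | hle
    · refine ⟨q' - q + (2 * s0 + 2), 2 * s0 + 2, by omega, by omega, ?_, ?_, by omega⟩
      · rw [Nat.even_iff] at *; omega
      · rw [Nat.even_iff] at *; omega
    · refine ⟨2 * s0 + 2, q - q' + (2 * s0 + 2), by omega, by omega, ?_, ?_, by omega⟩
      · rw [Nat.even_iff] at *; omega
      · rw [Nat.even_iff] at *; omega
  have h1 := step h hE hEE hs0 hx hw hL hC0 hC hk hq hp hqe he
  have h2 := step h hE hEE hs0 hx hw hL hC0 hC hk hq' hp' hqe' he'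
  rw [← hpp] at h2
  rw [abs_sub_comm] at h2
  have h3 := abs_add_le (TrL μ k L q / A1 μ k (w + q) (fun _ => 1) -
      TrL μ k L (q + p) / A1 μ k (w + (q + p)) (fun _ => 1))
    (TrL μ k L (q + p) / A1 μ k (w + (q + p)) (fun _ => 1) -
      TrL μ k L q' / A1 μ k (w + q') (fun _ => 1))
  rw [sub_add_sub_cancel] at h3
  linarith

end bounds

end Run7.h182.Siz
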