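import Pool.Agent.Run7.h182.Win
import Pool.Agent.Run7.h897.TW.Sc

/-!
# Change of one side of the torus
-/

set_option linter.unusedSectionVars false
set_option linter.unusedVariables false
set_option linter.style.haveILetI false

open MeasureTheory Filter Topology

namespace Run7.h182.Stp

open Pool.Agent.Run7.h897 Pool.Agent.Run7.h897.TW
open Pool.Agent.Run7.h897.FS (BM BK kk kp PM A1 A2 xs gs psi TS EE kp_KS)
open Run7.h182.Siz (TrL)

noncomputable section

/-- Links of the infinite lattice. -/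
abbrev LkZ (l : ℕ) := ((ℤ × ℤ) × (ZMod l × ZMod l)) × Fin 4

variable {N a b l : ℕ} {G : Type*}

/-- The periodic extension. -/
def perZ (U : Lk a b l → G) : LkZ l → G :=
  fun e => U (((((e.1.1.1 : ℤ) : ZMod a), ((e.1.1.2 : ℤ) : ZMod b)), e.1.2), e.2)

/-- The configuration of a sequence of slices. -/
def cfg (z : ℕ → (Ls b l → G) × (Sp b l → G)) : LkZ l → G := fun e =>
  Fin.cases (motive := fun _ => G) ((z e.1.1.1.toNat).2 (((e.1.1.2 : ℤ) : ZMod b), e.1.2))
    (fun j => (z e.1.1.1.toNat).1 ((((e.1.1.2 : ℤ) : ZMod b), e.1.2), j)) e.2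

lemma cfg_meas [MeasurableSpace G] :
    Measurable (cfg : (ℕ → (Ls b l → G) × (Sp b l → G)) → LkZ l → G) := by
  refine measurable_pi_iff.2 fun e => ?_
  obtain ⟨v, i⟩ := e
  refine Fin.cases ?_ (fun j => ?_) i
  · exact (measurable_pi_apply (((v.1.2 : ℤ) : ZMod b), v.2)).comp
      (measurable_snd.comp (measurable_pi_apply v.1.1.toNat))
  · exact (measurable_pi_apply ((((v.1.2 : ℤ) : ZMod b), v.2), j)).comp
      (measurable_fst.comp (measurable_pi_apply v.1.1.toNat))

lemma perZ_meas [MeasurableSpace G] : Measurable (perZ : (Lk a b l → G) → LkZ l → G) :=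
  measurable_pi_iff.2 fun e => measurable_pi_apply _

/-- observables of the links based in the slices `0, …, r - 1` -/
def Wn (r : ℕ) (H : (LkZ l → G) → ℝ) : Prop :=
  ∀ V V' : LkZ l → G, (∀ e : LkZ l, 0 ≤ e.1.1.1 → e.1.1.1 < r → V e = V' e) → H V = H V'

lemma cfg_per [NeZero a] {r : ℕ} {H : (LkZ l → G) → ℝ} (hH : Wn r H) (U : Lk a b l → G) :
    H (perZ U) = H (cfg (Win.sq (sg a b l) U)) := by
  refine hH _ _ fun e h0 _ => ?_
  obtain ⟨⟨⟨x, y⟩, v⟩, i⟩ := e
  simp only at h0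
  obtain ⟨t, rfl⟩ : ∃ t : ℕ, x = t := ⟨x.toNat, (Int.toNat_of_nonneg h0).symm⟩
  refine Fin.cases ?_ (fun j => ?_) i
  · unfold perZ cfg Win.sq gs
    simp only [Int.toNat_natCast, Int.cast_natCast]
    rfl
  · unfold perZ cfg Win.sq xs
    simp only [Int.toNat_natCast, Int.cast_natCast]
    rfl

lemma cfg_dep {r : ℕ} {H : (LkZ l → G) → ℝ} (hH : Wn r H)
    {z z' : ℕ → (Ls b l → G) × (Sp b l → G)} (hz : ∀ i < r, z i = z' i) :
    H (cfg z) = H (cfg z') := by
  refine hH _ _ fun e h0 h1 => ?_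
  have : e.1.1.1.toNat < r := by omega
  unfold cfg
  rw [hz _ this]

variable [Group G] [NeZero N] [NeZero l] {w : Ens N l G}
  [MeasurableSpace G] [MeasurableMul₂ G] [MeasurableInv G] {μ : Measure G}
  [IsProbabilityMeasure μ] [μ.IsInvInvariant]

/-- The expectation of a window observable in terms of the window kernel. -/
lemma XE_win [NeZero a] [NeZero b] (hb : w.Bd) {r : ℕ} (hr : 1 ≤ r) (hra : r + 1 ≤ a)
    {H : (LkZ l → G) → ℝ} (hH : BM H) (hW : Wn r H) :
    XE μ w (fun U : Lk a b l → G => H (perZ U)) =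
      TrL (PM μ (Ls b l)) (kp (PM μ (Ls b l)) (tk μ b w))
        (Win.W (PM μ (Ls b l)) (PM μ (Sp b l)) (kw (b := b) w) (r - 1) fun z => H (cfg z))
          (a - r) /
      A1 (PM μ (Ls b l)) (kp (PM μ (Ls b l)) (tk μ b w)) (r + (a - r)) (fun _ => 1) := by
  unfold XE
  have e1 : r + (a - r) = a := by omega
  rw [e1, ← ZE_eq (μ := μ) (a := a) hb]
  congr 1
  simp only [cfg_per (r := r) hW]
  simp only [← prod_kw]
  refine Win.int_win (μ := μ) (sg a b l) (kw_bm hb) (w := r - 1) (q := a - r) (by omega)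
    (by omega) (h := fun z => H (cfg z)) (BM.comp hH cfg_meas) fun z z' hz => ?_
  exact cfg_dep hW fun i hi => hz i (by omega)

/-- **Change of the length of the torus**: the expectations of a window observable on tori with the
same cross section agree up to `8 C e^{2x} √x`. -/
theorem XE_step (hb : w.Bd) (hw : w.Sy) {r s0 m n n' : ℕ} (a a' b : ℕ) [NeZero a] [NeZero a']
    [NeZero b] (hr : 1 ≤ r) (hs0 : 1 ≤ s0) (hbm : b = 2 * m) (han : a = 2 * n)
    (han' : a' = 2 * n') (h1 : r + 2 * s0 + 1 ≤ a) (h1' : r + 2 * s0 + 1 ≤ a') {x : ℝ}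
    (hx : psi (fun j => ZH2 μ w ![j, m]) s0 ≤ x) {H : (LkZ l → G) → ℝ} (hH : BM H) {C : ℝ}
    (hC : ∀ V, |H V| ≤ C) (hW : Wn r H) :
    |XE μ w (fun U : Lk a b l → G => H (perZ U)) -
        XE μ w (fun U : Lk a' b l → G => H (perZ U))| ≤
      8 * C * (Real.exp (2 * x) * √x) := by
  have hC0 : 0 ≤ C := (abs_nonneg _).trans (hC fun _ => 1)
  have hm : 1 ≤ m := by have := NeZero.pos b; omega
  set E : ℕ → ℝ := fun j => ZH2 μ w ![j, m] with hE
  have hEu : E = fun j => ZH2 μ w (Function.update ![1, m] 0 j) := by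
    funext j
    simp only [hE]
    congr 1
    funext i
    fin_cases i <;> simp
  have hTS : TS E := by
    rw [hEu]
    exact famE hb hw ![1, m] (fun j => by fin_cases j <;> simp [hm]) 0
  have hK := kp_KS (μ := PM μ (Ls b l)) (tk_bm (μ := μ) (b := b) hb) (tk_symm hb hw)
  have hEE : ∀ j, 1 ≤ j → EE (PM μ (Ls b l)) (kp (PM μ (Ls b l)) (tk μ b w)) j = E j := by
    intro j hj
    haveI : NeZero (2 * j) := ⟨by omega⟩
    rw [← ZE_EE hb hw hj]
    exact (ZH2_eq (by simp) (by simp [hbm])).symm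
  have hk : ∀ n, 1 ≤ n → ∀ x y, 0 ≤ kp (PM μ (Ls b l)) (tk μ b w) n x y := fun n hn x y =>
    (FS.kp_pos (tk_bm hb) (tk_pos hb) hn x y).le
  rw [XE_win hb hr (by omega) hH hW, XE_win hb hr (by omega) hH hW]
  refine Siz.size_ind hK hTS hEE hs0 hx hr ?_ hC0 ?_ hk (by omega) (by omega) ?_ ?_
  · exact Win.W_bk (kw_bm hb) _ (BM.comp hH cfg_meas)
  · intro u v
    have h2 := Win.W_le (μ := PM μ (Ls b l)) (γ := PM μ (Sp b l)) (κ := kw (b := b) w)
      (kw_bm hb) (fun x g x' => (kw_pos x g x').le) (r - 1) (h := fun z => H (cfg z)) (C := C)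
      (BM.comp hH cfg_meas) (fun z => hC _) u v
    rw [show r - 1 + 1 = r by omega] at h2
    exact h2
  · rw [show r + (a - r) = a by omega, han]
    exact even_two_mul n
  · rw [show r + (a' - r) = a' by omega, han']
    exact even_two_mul n'

end

end Run7.h182.Stp
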