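import Pool.Agent.Run7.h182.FourierSum
import Pool.Agent.Run7.h630.R2.Dc
import Pool.Agent.Run7.h897.TW.Loc

/-!
# The true theory and the centre-summed theory: all local observables

For an observable of a finite window, sensitive to the centre or not, the expectation in the theory
without fluxes is the quotient of two expectations in the centre-summed theory, up to an error
exponentially small in the area.
-/

set_option linter.unusedSectionVars false
set_option linter.unusedVariables false
set_option linter.style.haveILetI false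

open MeasureTheory Filter Topology

namespace Run7.h182.Tru

open Pool.Agent.Run7.h897 Pool.Agent.Run7.h897.TW
open Pool.Agent.Run7.h897.FS (BM PM)

/-! ### the Fourier sum with a hypothesis on part of the sites -/

/-- Version of `fourier_sum` with the lower bound on the sites of `T` only. -/
theorem fourier_sumT {ι : Type*} [Fintype ι] [DecidableEq ι] {N : ℕ} [NeZero N]
    (p : ι → ZMod N → ℝ) (T : Finset ι) (eps : ℝ) (he0 : 0 ≤ eps) (he1 : eps ≤ 1)
    (hp : ∀ u ∈ T, ∀ n, eps / N * ∑ m, p u m ≤ p u n) (h0 : ∀ u n, 0 ≤ p u n) :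
    |N * (∑ s : ι → ZMod N, if ∑ u, s u = 0 then ∏ u, p u (s u) else 0) - ∏ u, ∑ n, p u n|
      ≤ N * (1 - eps) ^ T.card * ∏ u, ∑ n, p u n := by
  classical
  have hP : 0 ≤ ∏ u, ∑ n, p u n :=
    Finset.prod_nonneg fun u _ => Finset.sum_nonneg fun n _ => h0 u n
  have key : ((N * (∑ s : ι → ZMod N, if ∑ u, s u = 0 then ∏ u, p u (s u) else 0) : ℝ) : ℂ)
      = ∑ q : ZMod N, ∏ u, ∑ n : ZMod N, (ZMod.stdAddChar (q * n) : ℂ) * (p u n : ℂ) := by
    have h1 : ∀ q : ZMod N, ∏ u, ∑ n : ZMod N, (ZMod.stdAddChar (q * n) : ℂ) * (p u n : ℂ)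
        = ∑ s : ι → ZMod N, ZMod.stdAddChar (q * ∑ u, s u) * ∏ u, (p u (s u) : ℂ) := by
      intro q
      rw [Finset.prod_univ_sum]
      simp only [Fintype.piFinset_univ]
      refine Finset.sum_congr rfl fun s _ => ?_
      rw [Finset.prod_mul_distrib, Finset.mul_sum]
      congr 1
      exact (map_char_sum ZMod.stdAddChar Finset.univ (fun u => q * s u)).symm
    rw [Finset.sum_congr rfl fun q _ => h1 q, Finset.sum_comm]
    push_cast
    rw [Finset.mul_sum]
    refine Finset.sum_congr rfl fun s _ => ?_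
    rw [← Finset.sum_mul, ind_char]
    split_ifs <;> simp
  have h2 : (∑ q : ZMod N, ∏ u, ∑ n : ZMod N, (ZMod.stdAddChar (q * n) : ℂ) * (p u n : ℂ))
      = ((∏ u, ∑ n, p u n : ℝ) : ℂ)
        + ∑ q ∈ Finset.univ.erase (0 : ZMod N),
            ∏ u, ∑ n : ZMod N, (ZMod.stdAddChar (q * n) : ℂ) * (p u n : ℂ) := by
    rw [← Finset.add_sum_erase _ _ (Finset.mem_univ (0 : ZMod N))]
    congr 1
    push_cast
    refine Finset.prod_congr rfl fun u _ => Finset.sum_congr rfl fun n _ => ?_
    simp
  have h3 : ‖∑ q ∈ Finset.univ.erase (0 : ZMod N),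
      ∏ u, ∑ n : ZMod N, (ZMod.stdAddChar (q * n) : ℂ) * (p u n : ℂ)‖
      ≤ N * ((1 - eps) ^ T.card * ∏ u, ∑ n, p u n) := by
    refine (norm_sum_le _ _).trans ?_
    have h4 : ∀ q ∈ Finset.univ.erase (0 : ZMod N),
        ‖∏ u, ∑ n : ZMod N, (ZMod.stdAddChar (q * n) : ℂ) * (p u n : ℂ)‖
          ≤ (1 - eps) ^ T.card * ∏ u, ∑ n, p u n := by
      intro q hq
      rw [Finset.mem_erase] at hq
      rw [norm_prod]
      have h5 : ∀ u, ‖∑ n : ZMod N, (ZMod.stdAddChar (q * n) : ℂ) * (p u n : ℂ)‖ ≤
          (if u ∈ T then (1 - eps) else 1) * ∑ n, p u n := by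
        intro u
        split_ifs with hu
        · exact one_site (p u) eps (hp u hu) hq.1
        · rw [one_mul]
          refine (norm_sum_le _ _).trans (Finset.sum_le_sum fun n _ => ?_)
          have hn : ‖(ZMod.stdAddChar (q * n) : ℂ)‖ = 1 := by simp
          rw [norm_mul, hn, one_mul, Complex.norm_real, Real.norm_of_nonneg (h0 u n)]
      refine (Finset.prod_le_prod (fun u _ => norm_nonneg _) fun u _ => h5 u).trans ?_
      rw [Finset.prod_mul_distrib, Finset.prod_ite, Finset.prod_const, Finset.prod_const_one,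
        mul_one, Finset.filter_mem_eq_inter, Finset.univ_inter]
    refine (Finset.sum_le_sum h4).trans ?_
    rw [Finset.sum_const, nsmul_eq_mul]
    refine mul_le_mul_of_nonneg_right ?_ (mul_nonneg (pow_nonneg (by linarith) _) hP)
    have : (Finset.univ.erase (0 : ZMod N)).card ≤ N := by
      refine (Finset.card_erase_le).trans ?_
      simp [ZMod.card]
    exact_mod_cast this
  have h5 : ((N * (∑ s : ι → ZMod N, if ∑ u, s u = 0 then ∏ u, p u (s u) else 0)
      - ∏ u, ∑ n, p u n : ℝ) : ℂ)
      = ∑ q ∈ Finset.univ.erase (0 : ZMod N),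
            ∏ u, ∑ n : ZMod N, (ZMod.stdAddChar (q * n) : ℂ) * (p u n : ℂ) := by
    rw [Complex.ofReal_sub, key, h2]
    ring
  rw [← Real.norm_eq_abs, ← Complex.norm_real, h5, mul_assoc]
  exact h3

/-! ### the axial gauge in a window -/

section axial

variable {N a b : ℕ} [NeZero N] [NeZero a] [NeZero b]

/-- the window -/
def win (a b W : ℕ) (u : ZMod a × ZMod b) : Prop := u.1.val < W ∧ u.2.val < W

instance (a b W : ℕ) (u : ZMod a × ZMod b) : Decidable (win a b W u) := by
  unfold win; infer_instance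

lemma val_add_one' {a : ℕ} [NeZero a] {x : ZMod a} (h : x.val + 1 < a) :
    (x + 1).val = x.val + 1 := by
  have h1 : x + 1 = ((x.val + 1 : ℕ) : ZMod a) := by
    push_cast
    rw [ZMod.natCast_zmod_val]
  rw [h1, ZMod.val_natCast_of_lt h]

/-- A flux configuration with sum zero, vanishing in the window, is the coboundary of a centre
field vanishing on the links of the window. -/
theorem axial {W : ℕ} (ha : W + 1 ≤ a) (hb : W + 1 ≤ b) (s : ZMod a × ZMod b → ZMod N)
    (hs : ∑ u, s u = 0) (hs0 : ∀ u, win a b W u → s u = 0) :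
    ∃ c : ZMod a × ZMod b → Fin 2 → ZMod N, dc c = s ∧
      ∀ u, win a b W u → c u 0 = 0 ∧ c u 1 = 0 := by
  obtain ⟨c', hc'⟩ := Pool.Agent.Run7.h630.R2.dc_range s hs
  set h : ZMod a × ZMod b → ZMod N := fun u =>
    -(∑ i ∈ Finset.range u.1.val, c' ((i : ZMod a), 0) 0 +
      ∑ j ∈ Finset.range u.2.val, c' (u.1, (j : ZMod b)) 1) with hh
  refine ⟨fun u => ![c' u 0 - (h u - h (u + (1, 0))), c' u 1 - (h u - h (u + (0, 1)))],
    ?_, ?_⟩
  · funext u
    have h1 := hc' u
    have h2 := congrFun (dc_pot (a := a) (b := b) h) u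
    unfold dc at h2 ⊢
    simp only [Matrix.cons_val_zero, Matrix.cons_val_one] at h2 ⊢
    linear_combination h1 - h2
  · rintro ⟨x, y⟩ ⟨hx, hy⟩
    simp only at hx hy
    have vx : (x + 1).val = x.val + 1 := val_add_one' (by omega)
    have vy : (y + 1).val = y.val + 1 := val_add_one' (by omega)
    simp only [Matrix.cons_val_zero, Matrix.cons_val_one, Prod.mk_add_mk, add_zero]
    constructor
    · -- direction 0
      have tel : ∀ m : ℕ, m ≤ y.val → ∑ j ∈ Finset.range m, c' (x + 1, (j : ZMod b)) 1 =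
          ∑ j ∈ Finset.range m, c' (x, (j : ZMod b)) 1 + c' (x, (m : ZMod b)) 0 -
            c' (x, 0) 0 := by
        intro m hm
        induction m with
        | zero => simp
        | succ m ih =>
          rw [Finset.sum_range_succ, Finset.sum_range_succ, ih (by omega)]
          have h3 := hc' (x, (m : ZMod b))
          have hv : ((m : ℕ) : ZMod b).val = m := ZMod.val_natCast_of_lt (by omega)
          rw [hs0 (x, (m : ZMod b)) ⟨hx, by simp only [hv]; omega⟩] at h3
          simp only [Prod.mk_add_mk, add_zero] at h3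
          push_cast
          linear_combination h3
      have h4 := tel y.val le_rfl
      rw [ZMod.natCast_zmod_val] at h4
      simp only [hh]
      rw [vx, Finset.sum_range_succ, h4, ZMod.natCast_zmod_val]
      ring
    · simp only [hh]
      rw [vy, Finset.sum_range_succ, ZMod.natCast_zmod_val]
      ring

end axial

/-! ### the comparison -/

section cmp

variable {N l : ℕ} {G : Type*} [Group G] [NeZero N] [NeZero l] {w : Ens N l G} {z : ZMod N → G}

/-- links of the quadrant -/
abbrev LkN (l : ℕ) := ((ℕ × ℕ) × (ZMod l × ZMod l)) × Fin 4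

/-- periodic reading of a torus configuration -/
def rd {a b : ℕ} (U : Lk a b l → G) : LkN l → G :=
  fun e => U ((((e.1.1.1 : ZMod a), (e.1.1.2 : ZMod b)), e.1.2), e.2)

/-- dependence on the links based in the window -/
def Lw (W : ℕ) (H : (LkN l → G) → ℝ) : Prop :=
  ∀ V V' : LkN l → G, (∀ e : LkN l, e.1.1.1 < W → e.1.1.2 < W → V e = V' e) → H V = H V'

/-- the energy of a base plaquette in the quadrant -/
def bsN (w : Ens N l G) (n : ZMod N) (V : LkN l → G) (u : ℕ × ℕ) : ℝ :=
  ∑ y : ZMod l × ZMod l, w.e0 n (V ((u, y), 0) * V (((u.1 + 1, u.2), y), 1) *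
    (V (((u.1, u.2 + 1), y), 0))⁻¹ * (V ((u, y), 1))⁻¹)

lemma bsN_rd {a b : ℕ} (n : ZMod N) (U : Lk a b l → G) (u : ℕ × ℕ) :
    bsN w n (rd U) u = bsE w n U ((u.1 : ZMod a), (u.2 : ZMod b)) := by
  unfold bsN bsE
  refine Finset.sum_congr rfl fun y _ => ?_
  congr 1
  unfold plq rd
  simp [ee]

/-- the probability of no flux through a plaquette -/
noncomputable def p0N (w : Ens N l G) (V : LkN l → G) (u : ℕ × ℕ) : ℝ :=
  Real.exp (-bsN w 0 V u) / ∑ n : ZMod N, Real.exp (-bsN w n V u)

/-- the probability of no flux through the window -/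
noncomputable def PW (w : Ens N l G) (W : ℕ) (V : LkN l → G) : ℝ :=
  ∏ u ∈ Finset.range W ×ˢ Finset.range W, p0N w V u

lemma p0N_pos (V : LkN l → G) (u : ℕ × ℕ) : 0 < p0N w V u := by
  unfold p0N
  have : 0 < ∑ n : ZMod N, Real.exp (-bsN w n V u) :=
    Finset.sum_pos (fun n _ => Real.exp_pos _) ⟨0, Finset.mem_univ _⟩
  positivity

lemma p0N_le (V : LkN l → G) (u : ℕ × ℕ) : p0N w V u ≤ 1 := by
  unfold p0N
  have h1 : 0 < ∑ n : ZMod N, Real.exp (-bsN w n V u) :=
    Finset.sum_pos (fun n _ => Real.exp_pos _) ⟨0, Finset.mem_univ _⟩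
  rw [div_le_one h1]
  exact Finset.single_le_sum (f := fun n : ZMod N => Real.exp (-bsN w n V u))
    (fun _ _ => (Real.exp_pos _).le) (Finset.mem_univ 0)

lemma PW_pos (W : ℕ) (V : LkN l → G) : 0 < PW w W V :=
  Finset.prod_pos fun u _ => p0N_pos V u

lemma PW_le (W : ℕ) (V : LkN l → G) : PW w W V ≤ 1 :=
  Finset.prod_le_one (fun u _ => (p0N_pos V u).le) fun u _ => p0N_le V u

lemma PW_lw (W : ℕ) : Lw (W + 1) (PW (l := l) w W) := by
  intro V V' h
  unfold PW
  refine Finset.prod_congr rfl fun u hu => ?_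
  rw [Finset.mem_product, Finset.mem_range, Finset.mem_range] at hu
  have hb : ∀ n, bsN w n V u = bsN w n V' u := by
    intro n
    unfold bsN
    refine Finset.sum_congr rfl fun y _ => ?_
    rw [h ((u, y), 0) (by simp only; omega) (by simp only; omega),
      h (((u.1 + 1, u.2), y), 1) (by simp only; omega) (by simp only; omega),
      h (((u.1, u.2 + 1), y), 0) (by simp only; omega) (by simp only; omega),
      h ((u, y), 1) (by simp only; omega) (by simp only; omega)]
  unfold p0N
  simp only [hb]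

variable [MeasurableSpace G] [MeasurableMul₂ G] [MeasurableInv G] {μ : Measure G}
  [IsProbabilityMeasure μ]

lemma rd_meas {a b : ℕ} : Measurable (rd : (Lk a b l → G) → LkN l → G) :=
  measurable_pi_iff.2 fun e => measurable_pi_apply _

lemma bsN_bm (hw : w.Bd) (n : ZMod N) (u : ℕ × ℕ) : BM fun V : LkN l → G => bsN w n V u := by
  unfold bsN
  refine BM.sum _ fun y _ => (hw.b0 n).comp ?_
  have h : ∀ e : LkN l, Measurable fun V : LkN l → G => V e := fun e => measurable_pi_apply e
  exact (((h _).mul (h _)).mul (h _).inv).mul (h _).inv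

/-- the bound of the energies of the plaquettes -/
lemma bsN_bound (hw : w.Bd) : ∃ M : ℝ, 0 ≤ M ∧ ∀ (V : LkN l → G) (n : ZMod N) (u : ℕ × ℕ),
    |bsN w n V u| ≤ M := by
  choose C hC using fun n => (hw.b0 n).2
  refine ⟨∑ y : ZMod l × ZMod l, ∑ n, |C n|, by positivity, fun V n u => ?_⟩
  unfold bsN
  refine (Finset.abs_sum_le_sum_abs _ _).trans (Finset.sum_le_sum fun y _ => ?_)
  refine ((hC n _).trans (le_abs_self _)).trans ?_
  exact Finset.single_le_sum (f := fun n => |C n|) (fun _ _ => abs_nonneg _) (Finset.mem_univ n)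

lemma p0N_lower {M : ℝ} (hM : ∀ (V : LkN l → G) (n : ZMod N) (u : ℕ × ℕ), |bsN w n V u| ≤ M)
    (V : LkN l → G) (u : ℕ × ℕ) : Real.exp (-(2 * M)) / N ≤ p0N w V u := by
  have hN : (0 : ℝ) < N := by exact_mod_cast NeZero.pos N
  unfold p0N
  have h1 : 0 < ∑ n : ZMod N, Real.exp (-bsN w n V u) :=
    Finset.sum_pos (fun n _ => Real.exp_pos _) ⟨0, Finset.mem_univ _⟩
  have h2 : ∑ n : ZMod N, Real.exp (-bsN w n V u) ≤ N * Real.exp M := by
    calc ∑ n : ZMod N, Real.exp (-bsN w n V u) ≤ ∑ _n : ZMod N, Real.exp M :=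
          Finset.sum_le_sum fun n _ => Real.exp_le_exp.2 ((neg_le_abs _).trans (hM V n u))
      _ = _ := by rw [Finset.sum_const, Finset.card_univ, ZMod.card, nsmul_eq_mul]
  have h3 : Real.exp (-M) ≤ Real.exp (-bsN w 0 V u) :=
    Real.exp_le_exp.2 (neg_le_neg ((le_abs_self _).trans (hM V 0 u)))
  rw [div_le_div_iff₀ hN h1]
  calc Real.exp (-(2 * M)) * ∑ n : ZMod N, Real.exp (-bsN w n V u)
      ≤ Real.exp (-(2 * M)) * (N * Real.exp M) :=
        mul_le_mul_of_nonneg_left h2 (Real.exp_pos _).le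
    _ = (Real.exp (-(2 * M)) * Real.exp M) * N := by ring
    _ = Real.exp (-M) * N := by
        rw [← Real.exp_add]
        congr 2
        ring
    _ ≤ Real.exp (-bsN w 0 V u) * N := mul_le_mul_of_nonneg_right h3 hN.le

lemma p0N_meas (hw : w.Bd) (u : ℕ × ℕ) : Measurable fun V : LkN l → G => p0N w V u := by
  unfold p0N
  refine Measurable.div ?_ ?_
  · exact Real.measurable_exp.comp ((bsN_bm hw 0 u).1.neg)
  · exact Finset.measurable_sum _ fun n _ => Real.measurable_exp.comp ((bsN_bm hw n u).1.neg)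

lemma PW_bm (hw : w.Bd) (W : ℕ) : BM (PW (l := l) w W) := by
  refine ⟨?_, 1, fun V => ?_⟩
  · unfold PW
    exact Finset.measurable_prod _ fun u _ => p0N_meas hw u
  · rw [abs_of_pos (PW_pos W V)]
    exact PW_le W V

/-- lower bound of the probability of no flux through the window -/
lemma PW_lower (hw : w.Bd) (W : ℕ) : ∃ c : ℝ, 0 < c ∧ ∀ V : LkN l → G, c ≤ PW w W V := by
  obtain ⟨M, hM0, hM⟩ := bsN_bound (l := l) hw
  have hN : (0 : ℝ) < N := by exact_mod_cast NeZero.pos N
  refine ⟨∏ _u ∈ Finset.range W ×ˢ Finset.range W, Real.exp (-(2 * M)) / N,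
    Finset.prod_pos fun _ _ => by positivity, fun V => ?_⟩
  unfold PW
  exact Finset.prod_le_prod (fun _ _ => by positivity) fun u _ => p0N_lower hM V u

/-- the window plaquettes of a torus -/
lemma prod_win {a b W : ℕ} [NeZero a] [NeZero b] (ha : W + 1 ≤ a) (hb : W + 1 ≤ b)
    (f : ZMod a × ZMod b → ℝ) :
    ∏ u : ZMod a × ZMod b, (if win a b W u then f u else 1) =
      ∏ u ∈ Finset.range W ×ˢ Finset.range W, f ((u.1 : ZMod a), (u.2 : ZMod b)) := by
  rw [← Finset.prod_filter]
  refine Finset.prod_nbij' (fun u => (u.1.val, u.2.val))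
    (fun u => ((u.1 : ZMod a), (u.2 : ZMod b))) ?_ ?_ ?_ ?_ ?_
  · rintro ⟨x, y⟩ h
    rw [Finset.mem_filter] at h
    simpa [win] using h.2
  · rintro ⟨i, j⟩ h
    rw [Finset.mem_product, Finset.mem_range, Finset.mem_range] at h
    simp only at h
    rw [Finset.mem_filter]
    refine ⟨Finset.mem_univ _, ?_⟩
    unfold win
    rw [ZMod.val_natCast_of_lt (by omega), ZMod.val_natCast_of_lt (by omega)]
    exact h
  · rintro ⟨x, y⟩ _
    simp
  · rintro ⟨i, j⟩ h
    rw [Finset.mem_product, Finset.mem_range, Finset.mem_range] at h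
    simp only at h
    simp only
    rw [ZMod.val_natCast_of_lt (by omega), ZMod.val_natCast_of_lt (by omega)]
  · rintro ⟨x, y⟩ _
    simp

lemma card_win {a b W : ℕ} [NeZero a] [NeZero b] (ha : W + 1 ≤ a) (hb : W + 1 ≤ b) :
    a * b - W * W ≤ (Finset.univ.filter fun u : ZMod a × ZMod b => ¬ win a b W u).card := by
  have h1 := Finset.card_filter_add_card_filter_not (s := (Finset.univ :
    Finset (ZMod a × ZMod b))) (fun u => win a b W u)
  have h2 : (Finset.univ.filter fun u : ZMod a × ZMod b => win a b W u).card ≤ W * W := by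
    have h3 : (Finset.univ.filter fun u : ZMod a × ZMod b => win a b W u).card ≤
        (Finset.range W ×ˢ Finset.range W).card := by
      refine Finset.card_le_card_of_injOn (fun u => (u.1.val, u.2.val)) ?_ ?_
      · rintro ⟨x, y⟩ h
        have h' : win a b W (x, y) := by simpa using h
        simpa [win] using h'
      · rintro ⟨x, y⟩ _ ⟨x', y'⟩ _ h
        simp only [Prod.mk.injEq] at h
        rw [ZMod.val_injective _ h.1, ZMod.val_injective _ h.2]
    rwa [Finset.card_product, Finset.card_range] at h3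
  have h4 : (Finset.univ : Finset (ZMod a × ZMod b)).card = a * b := by
    rw [Finset.card_univ, Fintype.card_prod, ZMod.card, ZMod.card]
  omega

/-- **The comparison** for all local observables. -/
theorem compareL [μ.IsMulLeftInvariant] (hw : w.Bd) (h : Cn w z) :
    ∃ ρ : ℝ, 0 ≤ ρ ∧ ρ < 1 ∧ ∀ (W a b : ℕ) [NeZero a] [NeZero b], W + 1 ≤ a → W + 1 ≤ b →
      N * ρ ^ (a * b - W * W) ≤ 1 / 2 →
      ∀ (H : (LkN l → G) → ℝ) (C : ℝ), BM H → (∀ V, |H V| ≤ C) → Lw W H →
      |XT μ w (fun U : Lk a b l → G => H (rd U)) -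
          XE μ w (fun U : Lk a b l → G => H (rd U) * PW w W (rd U)) /
            XE μ w (fun U : Lk a b l → G => PW w W (rd U))| ≤
        4 * C * (N * ρ ^ (a * b - W * W)) := by
  obtain ⟨M, hM0, hM⟩ := bs_bound (l := l) hw
  have hN : (0 : ℝ) < N := by exact_mod_cast NeZero.pos N
  have hρ0 : 0 ≤ 1 - Real.exp (-(2 * M)) := by
    have := Real.exp_le_one_iff.2 (show -(2 * M) ≤ 0 by linarith)
    linarith
  have hρ1 : 1 - Real.exp (-(2 * M)) < 1 := by linarith [Real.exp_pos (-(2 * M))]
  refine ⟨1 - Real.exp (-(2 * M)), hρ0, hρ1, ?_⟩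
  intro W a b _ _ ha hb hη H C hH hC hl
  set ρ := 1 - Real.exp (-(2 * M)) with hρ
  set η := N * ρ ^ (a * b - W * W) with hηd
  have hη0 : 0 ≤ η := by positivity
  have hC0 : 0 ≤ C := (abs_nonneg _).trans (hC fun _ => 1)
  -- the fluxes with sum zero vanishing in the window
  set S : Finset (ZMod a × ZMod b → ZMod N) := Finset.univ.filter fun s =>
    ∑ u, s u = 0 ∧ ∀ u, win a b W u → s u = 0 with hS
  set K : ℝ := N * S.card with hK
  have hcard : 0 < S.card := Finset.card_pos.2 ⟨fun _ => 0, by simp [hS]⟩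
  have hK0 : 0 < K := by positivity
  set P : (Lk a b l → G) → ℝ := fun U => PW w W (rd U) with hP
  have hPbm : BM P := (PW_bm hw W).comp rd_meas
  have hPpos : ∀ U, 0 < P U := fun U => PW_pos W _
  -- the sum over the fluxes
  have e1 : ∀ {H : (LkN l → G) → ℝ}, BM H → Lw W H →
      K * ∫ U, H (rd U) * wS w (fun _ => 0) U ∂(PM μ (Lk a b l)) =
        ∫ U, H (rd U) * (N * ∑ s ∈ S, wS w s U) ∂(PM μ (Lk a b l)) := by
    intro H hH hl
    have hHr : BM fun U : Lk a b l → G => H (rd U) := hH.comp rd_meas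
    have h1 : ∀ s ∈ S, ∫ U, H (rd U) * wS w (fun _ => 0) U ∂(PM μ (Lk a b l)) =
        ∫ U, H (rd U) * wS w s U ∂(PM μ (Lk a b l)) := by
      intro s hs
      rw [hS, Finset.mem_filter] at hs
      obtain ⟨c, hc, hc0⟩ := axial ha hb s hs.2.1 hs.2.2
      rw [int_tr hw h c hHr, hc]
      congr 1
      funext U
      congr 1
      refine hl _ _ fun e he1 he2 => ?_
      unfold rd tr
      simp only
      have hwn : win a b W ((e.1.1.1 : ZMod a), (e.1.1.2 : ZMod b)) := by
        unfold win
        rw [ZMod.val_natCast_of_lt (by omega), ZMod.val_natCast_of_lt (by omega)]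
        exact ⟨he1, he2⟩
      have h2 := hc0 _ hwn
      have h3 : cx c ((e.1.1.1 : ZMod a), (e.1.1.2 : ZMod b)) e.2 = 0 := by
        unfold cx
        rcases e with ⟨v, i⟩
        fin_cases i
        · exact h2.1
        · exact h2.2
        · rfl
        · rfl
      rw [h3, h.z0, one_mul]
    have h2 : ∫ U, H (rd U) * (N * ∑ s ∈ S, wS w s U) ∂(PM μ (Lk a b l)) =
        N * ∑ s ∈ S, ∫ U, H (rd U) * wS w s U ∂(PM μ (Lk a b l)) := by
      rw [← integral_finsetSum _ fun s _ => (hHr.mul (wS_bm hw s)).int, ← integral_const_mul]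
      congr 1
      funext U
      rw [← Finset.mul_sum]
      ring
    rw [h2, ← Finset.sum_congr rfl h1, Finset.sum_const, nsmul_eq_mul, hK]
    ring
  have hpt : ∀ U : Lk a b l → G, |N * ∑ s ∈ S, wS w s U - P U * wtE w U| ≤
      η * (P U * wtE w U) := by
    intro U
    set p : ZMod a × ZMod b → ZMod N → ℝ := fun u n => Real.exp (-bsE w n U u) with hp
    set p' : ZMod a × ZMod b → ZMod N → ℝ := fun u n =>
      if win a b W u then (if n = 0 then p u 0 else 0) else p u n with hp'
    have hpp : ∀ u n, 0 < p u n := fun u n => Real.exp_pos _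
    have hlo : ∀ u n, Real.exp (-M) ≤ p u n := fun u n =>
      Real.exp_le_exp.2 (neg_le_neg ((le_abs_self _).trans (hM a b U n u)))
    have hhi : ∀ u n, p u n ≤ Real.exp M := fun u n =>
      Real.exp_le_exp.2 ((neg_le_abs _).trans (hM a b U n u))
    have h1 := fourier_sumT p' (Finset.univ.filter fun u : ZMod a × ZMod b => ¬ win a b W u)
      (Real.exp (-(2 * M))) (Real.exp_pos _).le (Real.exp_le_one_iff.2 (by linarith))
      (fun u hu n => ?_) (fun u n => ?_)
    · -- the constrained sum
      have h2 : ∑ s ∈ S, wS w s U = Real.exp (-nbE w U) *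
          ∑ s : ZMod a × ZMod b → ZMod N, if ∑ u, s u = 0 then ∏ u, p' u (s u) else 0 := by
        rw [hS, Finset.sum_filter, Finset.mul_sum]
        refine Finset.sum_congr rfl fun s _ => ?_
        by_cases h3 : ∑ u, s u = 0
        · by_cases h4 : ∀ u, win a b W u → s u = 0
          · rw [if_pos ⟨h3, h4⟩, if_pos h3]
            unfold wS
            congr 1
            refine Finset.prod_congr rfl fun u _ => ?_
            simp only [hp']
            split_ifs with h5 h6
            · rw [h4 u h5]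
            · exact absurd (h4 u h5) h6
            · rfl
          · rw [if_neg fun h5 => h4 h5.2, if_pos h3]
            push Not at h4
            obtain ⟨u, hu, hu'⟩ := h4
            rw [Finset.prod_eq_zero (Finset.mem_univ u), mul_zero]
            simp only [hp', if_pos hu, if_neg hu']
        · rw [if_neg fun h5 => h3 h5.1, if_neg h3, mul_zero]
      have h3 : ∏ u, ∑ n, p' u n = (∏ u, ∑ n, p u n) * P U := by
        have h4 : ∀ u, ∑ n, p' u n = (∑ n, p u n) *
            (if win a b W u then p u 0 / ∑ n, p u n else 1) := by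
          intro u
          have hs : 0 < ∑ n, p u n := Finset.sum_pos (fun n _ => hpp u n) ⟨0, Finset.mem_univ _⟩
          simp only [hp']
          split_ifs with h5
          · rw [Finset.sum_ite_eq' Finset.univ (0 : ZMod N) fun _ => p u 0,
              if_pos (Finset.mem_univ _)]
            field_simp
          · rw [mul_one]
        rw [Finset.prod_congr rfl fun u _ => h4 u, Finset.prod_mul_distrib, prod_win ha hb]
        congr 1
        simp only [hP]
        unfold PW p0N
        refine Finset.prod_congr rfl fun u _ => ?_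
        simp only [bsN_rd, hp]
      have h5 : wtE w U = Real.exp (-nbE w U) * ∏ u, ∑ n, p u n := rfl
      rw [h3] at h1
      rw [h2, h5]
      have h6 : N * (Real.exp (-nbE w U) * ∑ s : ZMod a × ZMod b → ZMod N,
          if ∑ u, s u = 0 then ∏ u, p' u (s u) else 0) -
          P U * (Real.exp (-nbE w U) * ∏ u, ∑ n, p u n) =
          Real.exp (-nbE w U) * (N * (∑ s : ZMod a × ZMod b → ZMod N,
          if ∑ u, s u = 0 then ∏ u, p' u (s u) else 0) - (∏ u, ∑ n, p u n) * P U) := by ring
      rw [h6, abs_mul, abs_of_pos (Real.exp_pos _)]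
      have hpr : 0 ≤ (∏ u, ∑ n, p u n) * P U := mul_nonneg
        (Finset.prod_nonneg fun u _ => Finset.sum_nonneg fun n _ => (hpp u n).le) (hPpos U).le
      have h7 : (1 - Real.exp (-(2 * M))) ^
          (Finset.univ.filter fun u : ZMod a × ZMod b => ¬ win a b W u).card ≤
          ρ ^ (a * b - W * W) := pow_le_pow_of_le_one hρ0 hρ1.le (card_win ha hb)
      calc Real.exp (-nbE w U) * |N * (∑ s : ZMod a × ZMod b → ZMod N,
            if ∑ u, s u = 0 then ∏ u, p' u (s u) else 0) - (∏ u, ∑ n, p u n) * P U|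
          ≤ Real.exp (-nbE w U) * (N * (1 - Real.exp (-(2 * M))) ^
              (Finset.univ.filter fun u : ZMod a × ZMod b => ¬ win a b W u).card *
              ((∏ u, ∑ n, p u n) * P U)) := mul_le_mul_of_nonneg_left h1 (Real.exp_pos _).le
        _ ≤ Real.exp (-nbE w U) * (N * ρ ^ (a * b - W * W) *
              ((∏ u, ∑ n, p u n) * P U)) := by
            refine mul_le_mul_of_nonneg_left ?_ (Real.exp_pos _).le
            refine mul_le_mul_of_nonneg_right ?_ hpr
            exact mul_le_mul_of_nonneg_left h7 hN.le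
        _ = _ := by rw [hηd]; ring
    · -- the lower bound outside of the window
      have hu' : ¬ win a b W u := by simpa using hu
      simp only [hp', if_neg hu']
      have h2 : ∑ m, p u m ≤ N * Real.exp M := by
        calc ∑ m, p u m ≤ ∑ _m : ZMod N, Real.exp M := Finset.sum_le_sum fun m _ => hhi u m
          _ = _ := by rw [Finset.sum_const, Finset.card_univ, ZMod.card, nsmul_eq_mul]
      calc Real.exp (-(2 * M)) / N * ∑ m, p u m
          ≤ Real.exp (-(2 * M)) / N * (N * Real.exp M) :=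
            mul_le_mul_of_nonneg_left h2 (by positivity)
        _ = Real.exp (-(2 * M)) * Real.exp M := by field_simp
        _ = Real.exp (-M) := by rw [← Real.exp_add]; congr 1; ring
        _ ≤ p u n := hlo u n
    · simp only [hp']
      split_ifs
      · exact (hpp u 0).le
      · exact le_rfl
      · exact (hpp u n).le
  set ZP := ∫ U : Lk a b l → G, P U * wtE w U ∂(PM μ (Lk a b l)) with hZP
  have hPw : BM fun U : Lk a b l → G => P U * wtE w U := hPbm.mul (wtE_bm hw)
  have hZPpos : 0 < ZP := hPw.int_pos fun U => mul_pos (hPpos U) (wtE_pos U)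
  have hmain : ∀ {H : (LkN l → G) → ℝ} {C : ℝ}, BM H → (∀ V, |H V| ≤ C) → 0 ≤ C → Lw W H →
      |K * (∫ U, H (rd U) * wS w (fun _ => 0) U ∂(PM μ (Lk a b l))) -
        ∫ U, H (rd U) * (P U * wtE w U) ∂(PM μ (Lk a b l))| ≤ C * (η * ZP) := by
    intro H C hH hC hC0 hl
    have hHr : BM fun U : Lk a b l → G => H (rd U) := hH.comp rd_meas
    have hs : BM fun U : Lk a b l → G => N * ∑ s ∈ S, wS w s U :=
      (BM.const _).mul (BM.sum _ fun s _ => wS_bm hw s)
    rw [e1 hH hl, ← integral_sub (hHr.mul hs).int (hHr.mul hPw).int]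
    have h1 : C * (η * ZP) = ∫ U : Lk a b l → G, C * (η * (P U * wtE w U)) ∂(PM μ (Lk a b l)) := by
      rw [integral_const_mul, integral_const_mul]
    rw [h1]
    refine (abs_integral_le_integral_abs).trans ?_
    refine integral_mono ((hHr.mul hs).sub (hHr.mul hPw)).int.abs
      ((BM.const C).mul ((BM.const η).mul hPw)).int fun U => ?_
    simp only
    rw [← mul_sub, abs_mul]
    exact mul_le_mul (hC _) (hpt U) (abs_nonneg _) hC0
  have m1 := hmain hH hC hC0 hl
  have m2 := hmain (H := fun _ => 1) (C := 1) (BM.const 1) (fun _ => by simp) zero_le_one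
    (fun _ _ _ => rfl)
  simp only [one_mul] at m2
  have hB : |∫ U, H (rd U) * (P U * wtE w U) ∂(PM μ (Lk a b l))| ≤ C * ZP := by
    have hHr : BM fun U : Lk a b l → G => H (rd U) := hH.comp rd_meas
    have h1 : C * ZP = ∫ U : Lk a b l → G, C * (P U * wtE w U) ∂(PM μ (Lk a b l)) := by
      rw [integral_const_mul]
    rw [h1]
    refine (abs_integral_le_integral_abs).trans ?_
    refine integral_mono (hHr.mul hPw).int.abs ((BM.const C).mul hPw).int fun U => ?_
    simp only
    rw [abs_mul, abs_of_pos (mul_pos (hPpos U) (wtE_pos U))]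
    exact mul_le_mul_of_nonneg_right (hC _) (mul_pos (hPpos U) (wtE_pos U)).le
  -- the quotient
  have hZ : 0 < ZE μ w a b := ZE_pos hw
  have hq : XE μ w (fun U : Lk a b l → G => H (rd U) * PW w W (rd U)) /
      XE μ w (fun U : Lk a b l → G => PW w W (rd U)) =
      (∫ U, H (rd U) * (P U * wtE w U) ∂(PM μ (Lk a b l))) / ZP := by
    unfold XE
    rw [div_div_div_cancel_right₀ hZ.ne']
    congr 1
    · congr 1
      funext U
      ring
  rw [hq]
  change |K * (∫ U, wS w (fun _ => 0) U ∂(PM μ (Lk a b l))) - ZP| ≤ η * ZP at m2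
  unfold XT
  set A := ∫ U, H (rd U) * wS w (fun _ => 0) U ∂(PM μ (Lk a b l)) with hA
  set Z0 := ∫ U, wS w (fun _ => 0) U ∂(PM μ (Lk a b l)) with hZ0
  set B := ∫ U, H (rd U) * (P U * wtE w U) ∂(PM μ (Lk a b l)) with hBd
  have hZ0' : ZP / 2 ≤ K * Z0 := by
    have := (abs_le.1 m2).1
    nlinarith
  have hKZ : 0 < K * Z0 := by linarith
  have hZ0p : 0 < Z0 := (mul_pos_iff_of_pos_left hK0).1 hKZ
  have e2 : A / Z0 - B / ZP = ((K * A - B) * ZP + B * (ZP - K * Z0)) / (K * Z0 * ZP) := by
    field_simp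
    ring
  rw [e2, abs_div, abs_of_pos (show 0 < K * Z0 * ZP by positivity), div_le_iff₀ (by positivity)]
  calc |(K * A - B) * ZP + B * (ZP - K * Z0)|
      ≤ |(K * A - B) * ZP| + |B * (ZP - K * Z0)| := abs_add_le _ _
    _ ≤ C * (η * ZP) * ZP + C * ZP * (η * ZP) := by
        refine add_le_add ?_ ?_
        · rw [abs_mul, abs_of_pos hZPpos]
          exact mul_le_mul_of_nonneg_right m1 hZPpos.le
        · rw [abs_mul, abs_sub_comm]
          exact mul_le_mul hB m2 (abs_nonneg _) (by positivity)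
    _ = 4 * C * η * (ZP / 2 * ZP) := by ring
    _ ≤ 4 * C * η * (K * Z0 * ZP) := by
        apply mul_le_mul_of_nonneg_left _ (by positivity)
        exact mul_le_mul_of_nonneg_right hZ0' hZPpos.le

end cmp

end Run7.h182.Tru
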