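import Pool.Agent.Run7.h182.Wl
import Pool.Agent.Run7.h182.Tru

/-!
# Uniqueness of the infinite volume limit of the true theory
-/

set_option linter.unusedSectionVars false
set_option linter.unusedVariables false
set_option linter.style.haveILetI false

open MeasureTheory Filter Topology

namespace Run7.h182.Unq

open Pool.Agent.Run7.h897 Pool.Agent.Run7.h897.TW
open Pool.Agent.Run7.h897.FS (BM PM)
open Run7.h182.Tru (LkN Lw PW compareL)

variable {N l : ℕ} {G : Type*} [Group G] [NeZero N] [NeZero l] {w : Ens N l G} {z : ZMod N → G}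
  [MeasurableSpace G] [MeasurableMul₂ G] [MeasurableInv G] {μ : Measure G}
  [IsProbabilityMeasure μ]

lemma XE_ge {a b : ℕ} [NeZero a] [NeZero b] (hw : w.Bd) {H : (Lk a b l → G) → ℝ} {c : ℝ}
    (hH : BM H) (hc : ∀ U, c ≤ H U) : c ≤ XE μ w H := by
  have hZ : 0 < ∫ U : Lk a b l → G, wtE w U ∂(PM μ (Lk a b l)) :=
    (wtE_bm hw).int_pos wtE_pos
  unfold XE ZE
  rw [le_div_iff₀ hZ, ← integral_const_mul]
  refine integral_mono ((BM.const c).mul (wtE_bm hw)).int (hH.mul (wtE_bm hw)).int fun U => ?_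
  exact mul_le_mul_of_nonneg_right (hc U) (wtE_pos U).le

lemma XE_abs_le {a b : ℕ} [NeZero a] [NeZero b] (hw : w.Bd) {H K : (Lk a b l → G) → ℝ}
    (hH : BM H) (hK : BM K) (h : ∀ U, |H U| ≤ K U) : |XE μ w H| ≤ XE μ w K := by
  have hZ : 0 < ∫ U : Lk a b l → G, wtE w U ∂(PM μ (Lk a b l)) :=
    (wtE_bm hw).int_pos wtE_pos
  unfold XE ZE
  rw [abs_div, abs_of_pos hZ]
  refine div_le_div_of_nonneg_right ?_ hZ.le
  refine abs_integral_le_integral_abs.trans ?_
  refine integral_mono (hH.mul (wtE_bm hw)).int.abs (hK.mul (wtE_bm hw)).int fun U => ?_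
  simp only [abs_mul, abs_of_pos (wtE_pos (w := w) U)]
  exact mul_le_mul_of_nonneg_right (h U) (wtE_pos U).le

/-- **The expectations of all local observables in the true theory converge** along all even
tori whose sides tend to infinity. -/
theorem XT_cauchy [μ.IsInvInvariant] [μ.IsMulLeftInvariant] (hb : w.Bd) (hw : w.Sy)
    (h : Cn w z) {a : ℕ} (ha : 1 ≤ a) {s : ℝ} (hs0 : 0 < s) (hs : s ≤ 1 / 2)
    (hcr : CrS μ w a s) (W : ℕ) {η : ℝ} (hη : 0 < η) :
    ∃ n₀ : ℕ, ∀ H : (LkN l → G) → ℝ, Measurable H → (∀ V, |H V| ≤ 1) → Lw W H →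
      ∀ (c b c' b' : ℕ) [NeZero c] [NeZero b] [NeZero c'] [NeZero b'], n₀ ≤ c → n₀ ≤ b →
        n₀ ≤ c' → n₀ ≤ b' → Even c → Even b → Even c' → Even b' →
        |XT μ w (fun U : Lk c b l → G => H (Tru.rd U)) -
          XT μ w (fun U : Lk c' b' l → G => H (Tru.rd U))| ≤ η := by
  obtain ⟨ρ, hρ0, hρ1, hcmp⟩ := compareL (μ := μ) (l := l) hb h
  obtain ⟨c0, hc0, hlow⟩ := Tru.PW_lower (w := w) (l := l) hb W
  obtain ⟨n1, hn1⟩ := Wl.size (N := N) (l := l) (μ := μ) ha hs0 hs (W + 1)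
    (show 0 < η * c0 / 4 by positivity)
  have hN : (0 : ℝ) < N := by exact_mod_cast NeZero.pos N
  have hlim : Tendsto (fun k : ℕ => N * ρ ^ k) atTop (𝓝 0) := by
    have := (tendsto_pow_atTop_nhds_zero_of_lt_one hρ0 hρ1).const_mul (N : ℝ)
    rwa [mul_zero] at this
  obtain ⟨n2, hn2⟩ := eventually_atTop.1
    (hlim.eventually_le_const (show 0 < min (1 / 2) (η / 16) by positivity))
  refine ⟨n1 + n2 + W * W + W + 1, fun H hHm hH1 hHW c b c' b' _ _ _ _ hc hbb hc' hb' ec eb ec'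
    eb' => ?_⟩
  have hHb : BM H := ⟨hHm, 1, hH1⟩
  have hPb : BM (PW (l := l) w W) := Tru.PW_bm hb W
  have hP0 : ∀ V : LkN l → G, 0 < PW w W V := fun V => Tru.PW_pos W V
  have hP1 : ∀ V : LkN l → G, PW w W V ≤ 1 := fun V => Tru.PW_le W V
  -- the area
  have area : ∀ c b : ℕ, n1 + n2 + W * W + W + 1 ≤ c → n1 + n2 + W * W + W + 1 ≤ b →
      n2 ≤ c * b - W * W := by
    intro c b hc hb
    have h1 : (n2 + W * W) * 1 ≤ c * b := Nat.mul_le_mul (by omega) (by omega)
    omega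
  -- comparison on each torus
  have one : ∀ (c b : ℕ) [NeZero c] [NeZero b], n1 + n2 + W * W + W + 1 ≤ c →
      n1 + n2 + W * W + W + 1 ≤ b →
      |XT μ w (fun U : Lk c b l → G => H (Tru.rd U)) -
          XE μ w (fun U : Lk c b l → G => H (Tru.rd U) * PW w W (Tru.rd U)) /
            XE μ w (fun U : Lk c b l → G => PW w W (Tru.rd U))| ≤ η / 4 := by
    intro c b _ _ hc hb'
    have h1 := hn2 _ (area c b hc hb')
    have h2 := hcmp W c b (by omega) (by omega) (h1.trans (min_le_left _ _)) H 1 hHb hH1 hHW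
    have h3 := h1.trans (min_le_right _ _)
    linarith
  have t1 := one c b hc hbb
  have t2 := one c' b' hc' hb'
  -- the two sizes
  have s1 := hn1 w hb hw hcr (fun V => H V * PW w W V) (hHm.mul hPb.1)
    (fun V => by
      rw [abs_mul, abs_of_pos (hP0 V)]
      exact mul_le_one₀ (hH1 V) (hP0 V).le (hP1 V))
    (fun V V' hV => by
      rw [hHW V V' fun e h1 h2 => hV e (by omega) (by omega),
        Tru.PW_lw W V V' fun e h1 h2 => hV e h1 h2])
    c b c' b' (by omega) (by omega) (by omega) (by omega) ec eb ec' eb'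
  have s2 := hn1 w hb hw hcr (fun V => PW w W V) hPb.1
    (fun V => by
      rw [abs_of_pos (hP0 V)]
      exact hP1 V)
    (fun V V' hV => Tru.PW_lw W V V' fun e h1 h2 => hV e h1 h2)
    c b c' b' (by omega) (by omega) (by omega) (by omega) ec eb ec' eb'
  change |XE μ w (fun U : Lk c b l → G => H (Tru.rd U) * PW w W (Tru.rd U)) -
    XE μ w (fun U : Lk c' b' l → G => H (Tru.rd U) * PW w W (Tru.rd U))| ≤ η * c0 / 4 at s1
  change |XE μ w (fun U : Lk c b l → G => PW w W (Tru.rd U)) -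
    XE μ w (fun U : Lk c' b' l → G => PW w W (Tru.rd U))| ≤ η * c0 / 4 at s2
  have g1 : c0 ≤ XE μ w (fun U : Lk c b l → G => PW w W (Tru.rd U)) :=
    XE_ge hb (hPb.comp Tru.rd_meas) fun U => hlow _
  have g2 : c0 ≤ XE μ w (fun U : Lk c' b' l → G => PW w W (Tru.rd U)) :=
    XE_ge hb (hPb.comp Tru.rd_meas) fun U => hlow _
  have g3 : |XE μ w (fun U : Lk c' b' l → G => H (Tru.rd U) * PW w W (Tru.rd U))| ≤
      XE μ w (fun U : Lk c' b' l → G => PW w W (Tru.rd U)) := by
    refine XE_abs_le hb ((hHb.comp Tru.rd_meas).mul (hPb.comp Tru.rd_meas))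
      (hPb.comp Tru.rd_meas) fun U => ?_
    rw [abs_mul, abs_of_pos (hP0 _)]
    exact mul_le_of_le_one_left (hP0 _).le (hH1 _)
  set A := XE μ w (fun U : Lk c b l → G => H (Tru.rd U) * PW w W (Tru.rd U))
  set B := XE μ w (fun U : Lk c b l → G => PW w W (Tru.rd U))
  set A' := XE μ w (fun U : Lk c' b' l → G => H (Tru.rd U) * PW w W (Tru.rd U))
  set B' := XE μ w (fun U : Lk c' b' l → G => PW w W (Tru.rd U))
  have hB : 0 < B := hc0.trans_le g1
  have hB' : 0 < B' := hc0.trans_le g2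
  have q : |A / B - A' / B'| ≤ η / 2 := by
    have e : A / B - A' / B' = (A - A') / B + A' / B' * ((B' - B) / B) := by
      field_simp
      ring
    have q1 : |(A - A') / B| ≤ η / 4 := by
      rw [abs_div, abs_of_pos hB, div_le_iff₀ hB]
      calc |A - A'| ≤ η * c0 / 4 := s1
        _ = η / 4 * c0 := by ring
        _ ≤ η / 4 * B := mul_le_mul_of_nonneg_left g1 (by positivity)
    have q2 : |A' / B'| ≤ 1 := by
      rw [abs_div, abs_of_pos hB', div_le_one hB']
      exact g3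
    have q3 : |(B' - B) / B| ≤ η / 4 := by
      rw [abs_div, abs_of_pos hB, div_le_iff₀ hB, abs_sub_comm]
      calc |B - B'| ≤ η * c0 / 4 := s2
        _ = η / 4 * c0 := by ring
        _ ≤ η / 4 * B := mul_le_mul_of_nonneg_left g1 (by positivity)
    rw [e]
    calc |(A - A') / B + A' / B' * ((B' - B) / B)|
        ≤ |(A - A') / B| + |A' / B'| * |(B' - B) / B| := by
          rw [← abs_mul]; exact abs_add_le _ _
      _ ≤ η / 4 + 1 * (η / 4) := by
          refine add_le_add q1 (mul_le_mul q2 q3 (abs_nonneg _) zero_le_one)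
      _ = η / 2 := by ring
  have u1 := abs_sub_le (XT μ w (fun U : Lk c b l → G => H (Tru.rd U))) (A / B)
    (XT μ w (fun U : Lk c' b' l → G => H (Tru.rd U)))
  have u2 := abs_sub_le (A / B) (A' / B')
    (XT μ w (fun U : Lk c' b' l → G => H (Tru.rd U)))
  rw [abs_sub_comm] at t2
  linarith

end Run7.h182.Unq
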