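import Pool.Agent.Run7.h182.Siz

/-!
# Window observables on a ring

An observable of the variables of a window of consecutive slices (time links included) gives a
window kernel dominated by a power of the transfer kernel.
-/

set_option linter.unusedSectionVars false
set_option linter.unusedVariables false
set_option linter.style.haveILetI false

open MeasureTheory Filter Topology

namespace Run7.h182.Win

open Pool.Agent.Run7.h897.FS
open Run7.h182.Siz (TrL)

universe u

section abs

variable {X Γ : Type u} [MeasurableSpace X] [MeasurableSpace Γ] {μ : Measure X}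
  [IsProbabilityMeasure μ] {γ : Measure Γ} [IsProbabilityMeasure γ]
  {κ : X → Γ → X → ℝ}

/-- the kernel integrated over the time links -/
noncomputable def kg (γ : Measure Γ) (κ : X → Γ → X → ℝ) (x x' : X) : ℝ := ∫ g, κ x g x' ∂γ

/-- measurability of the weight -/
def BW (κ : X → Γ → X → ℝ) : Prop := BM fun w : (X × X) × Γ => κ w.1.1 w.2 w.1.2

lemma BW.c3 (hκ : BW κ) {Y : Type*} [MeasurableSpace Y] {f h : Y → X} {g : Y → Γ}
    (hf : Measurable f) (hg : Measurable g) (hh : Measurable h) :
    BM fun y => κ (f y) (g y) (h y) :=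
  BM.comp hκ (φ := fun y => ((f y, h y), g y)) ((hf.prodMk hh).prodMk hg)

lemma kg_bm (hκ : BW κ) : BM (Function.uncurry (kg γ κ)) := BM.intg hκ

/-- prepending a term to a sequence -/
def cns {Y : Type*} (y : Y) (z : ℕ → Y) : ℕ → Y := fun i => Nat.casesOn i y z

/-- extension of a finite sequence -/
def ext {Y : Type*} {n : ℕ} (v : Fin (n + 1) → Y) : ℕ → Y := fun i => v ⟨min i n, by omega⟩

lemma ext_cons {Y : Type*} {n : ℕ} (y : Y) (u : Fin (n + 1) → Y) :
    ext (Fin.cons y u : Fin (n + 2) → Y) = cns y (ext u) := by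
  funext i
  cases i with
  | zero => rfl
  | succ i =>
    unfold ext cns
    have : (⟨min (i + 1) (n + 1), by omega⟩ : Fin (n + 2)) = Fin.succ ⟨min i n, by omega⟩ := by
      ext
      simp
    rw [this, Fin.cons_succ]

lemma cns_meas {Y P : Type*} [MeasurableSpace Y] [MeasurableSpace P] {f : P → Y} {g : P → ℕ → Y}
    (hf : Measurable f) (hg : Measurable g) : Measurable fun p => cns (f p) (g p) := by
  refine measurable_pi_iff.2 fun i => ?_
  cases i with
  | zero => exact hf
  | succ i => exact (measurable_pi_apply i).comp hg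

lemma ext_meas {Y : Type*} [MeasurableSpace Y] {n : ℕ} :
    Measurable (ext : (Fin (n + 1) → Y) → ℕ → Y) :=
  measurable_pi_iff.2 fun i => measurable_pi_apply _

lemma cons2_meas {Y : Type*} [MeasurableSpace Y] {n : ℕ} :
    Measurable fun q : Y × (Fin n → Y) => (Fin.cons q.1 q.2 : Fin (n + 1) → Y) := by
  refine measurable_pi_iff.2 fun i => ?_
  refine Fin.cases ?_ (fun j => ?_) i
  · simp only [Fin.cons_zero]
    exact measurable_fst
  · simp only [Fin.cons_succ]
    exact (measurable_pi_apply j).comp measurable_snd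

/-- the window kernel -/
noncomputable def W (μ : Measure X) (γ : Measure Γ) (κ : X → Γ → X → ℝ) :
    ℕ → ((ℕ → X × Γ) → ℝ) → X → X → ℝ
  | 0, h, x, x' => ∫ g, h (fun _ => (x, g)) * κ x g x' ∂γ
  | w + 1, h, x, x' => ∫ g, ∫ x1, κ x g x1 * W μ γ κ w (fun z => h (cns (x, g) z)) x1 x' ∂μ ∂γ

lemma W_bm (hκ : BW κ) (w : ℕ) : ∀ {P : Type u} [MeasurableSpace P] {h : P → (ℕ → X × Γ) → ℝ},
    BM (Function.uncurry h) →
      BM fun p : P × (X × X) => W μ γ κ w (h p.1) p.2.1 p.2.2 := by
  induction w with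
  | zero =>
    intro P _ h hh
    have h1 : BM fun q : (P × (X × X)) × Γ =>
        h q.1.1 (fun _ => (q.1.2.1, q.2)) * κ q.1.2.1 q.2 q.1.2.2 := by
      refine BM.mul ?_ ?_
      · refine BM.comp hh (φ := fun q : (P × (X × X)) × Γ => (q.1.1, fun _ => (q.1.2.1, q.2))) ?_
        exact measurable_fst.fst.prodMk (measurable_pi_iff.2 fun _ =>
          (measurable_fst.snd.fst).prodMk measurable_snd)
      · exact hκ.c3 measurable_fst.snd.fst measurable_snd measurable_fst.snd.snd
    exact h1.intg (ν := γ)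
  | succ w ih =>
    intro P _ h hh
    have hh' : BM (Function.uncurry fun (q : P × (X × Γ)) (z : ℕ → X × Γ) =>
        h q.1 (cns q.2 z)) := by
      refine BM.comp hh (φ := fun q : (P × (X × Γ)) × (ℕ → X × Γ) => (q.1.1, cns q.1.2 q.2)) ?_
      exact measurable_fst.fst.prodMk (cns_meas measurable_fst.snd measurable_snd)
    have h2 := ih hh'
    have h3 : BM fun q : ((P × (X × X)) × Γ) × X =>
        κ q.1.1.2.1 q.1.2 q.2 * W μ γ κ w (fun z => h q.1.1.1 (cns (q.1.1.2.1, q.1.2) z)) q.2
          q.1.1.2.2 := by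
      refine BM.mul ?_ ?_
      · exact hκ.c3 measurable_fst.fst.snd.fst measurable_fst.snd measurable_snd
      · refine BM.comp h2 (φ := fun q : ((P × (X × X)) × Γ) × X =>
          ((q.1.1.1, (q.1.1.2.1, q.1.2)), (q.2, q.1.1.2.2))) ?_
        exact (measurable_fst.fst.fst.prodMk
          (measurable_fst.fst.snd.fst.prodMk measurable_fst.snd)).prodMk
          (measurable_snd.prodMk measurable_fst.fst.snd.snd)
    exact (h3.intg (ν := μ)).intg (ν := γ)

lemma W_bk (hκ : BW κ) (w : ℕ) {h : (ℕ → X × Γ) → ℝ} (hh : BM h) :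
    BM (Function.uncurry (W μ γ κ w h)) := by
  have h1 := W_bm (μ := μ) (γ := γ) hκ w (P := PUnit.{u + 1}) (h := fun _ => h)
    (BM.comp hh measurable_snd)
  exact BM.comp h1 (φ := fun p : X × X => (PUnit.unit, p)) (measurable_const.prodMk measurable_id)

/-- joint measurability in the first site -/
lemma W_bm2 (hκ : BW κ) (w : ℕ) {h : (ℕ → X × Γ) → ℝ} (hh : BM h) :
    BM fun p : (X × Γ) × (X × X) => W μ γ κ w (fun z => h (cns p.1 z)) p.2.1 p.2.2 := by
  refine W_bm (μ := μ) (γ := γ) hκ w (h := fun (p : X × Γ) z => h (cns p z)) ?_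
  exact BM.comp hh (φ := fun q : (X × Γ) × (ℕ → X × Γ) => cns q.1 q.2)
    (cns_meas measurable_fst measurable_snd)

/-- domination -/
lemma W_le (hκ : BW κ) (h0 : ∀ x g x', 0 ≤ κ x g x') (w : ℕ) :
    ∀ {h : (ℕ → X × Γ) → ℝ} {C : ℝ}, BM h → (∀ z, |h z| ≤ C) → ∀ x x',
      |W μ γ κ w h x x'| ≤ C * kp μ (kg γ κ) (w + 1) x x' := by
  have hk := kg_bm (γ := γ) hκ
  induction w with
  | zero =>
    intro h C hh hC x x'
    change |∫ g, h (fun _ => (x, g)) * κ x g x' ∂γ| ≤ C * ∫ g, κ x g x' ∂γ
    have b1 : BM fun g : Γ => h (fun _ => (x, g)) * κ x g x' :=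
      BM.mul (BM.comp hh (measurable_pi_iff.2 fun _ => measurable_const.prodMk measurable_id))
        (hκ.c3 measurable_const measurable_id measurable_const)
    rw [← integral_const_mul]
    refine abs_integral_le_integral_abs.trans ?_
    refine integral_mono b1.int.abs ((BM.const C).mul
      (hκ.c3 measurable_const measurable_id measurable_const)).int fun g => ?_
    simp only [abs_mul, abs_of_nonneg (h0 x g x')]
    exact mul_le_mul_of_nonneg_right (hC _) (h0 _ _ _)
  | succ w ih =>
    intro h C hh hC x x'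
    have b3 : BM fun q : Γ × X => κ x q.1 q.2 * W μ γ κ w (fun z => h (cns (x, q.1) z)) q.2 x' := by
      refine BM.mul (hκ.c3 measurable_const measurable_fst measurable_snd) ?_
      exact BM.comp (W_bm2 (μ := μ) (γ := γ) hκ w hh)
        (φ := fun q : Γ × X => ((x, q.1), (q.2, x')))
        ((measurable_const.prodMk measurable_fst).prodMk
          (measurable_snd.prodMk measurable_const))
    have b4 : BM fun q : Γ × X => κ x q.1 q.2 * (C * kp μ (kg γ κ) (w + 1) q.2 x') := by
      refine BM.mul (hκ.c3 measurable_const measurable_fst measurable_snd)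
        ((BM.const C).mul ?_)
      exact BM.comp (kp_bm hk (n := w + 1) (by omega)) (φ := fun q : Γ × X => (q.2, x'))
        (measurable_snd.prodMk measurable_const)
    have e1 : C * kp μ (kg γ κ) (w + 1 + 1) x x' =
        ∫ g, ∫ x1, κ x g x1 * (C * kp μ (kg γ κ) (w + 1) x1 x') ∂μ ∂γ := by
      rw [swp b4, kp_succ (by omega), ← integral_const_mul]
      congr 1
      funext x1
      rw [integral_mul_const]
      unfold kg
      ring
    rw [e1]
    change |∫ g, ∫ x1, κ x g x1 * W μ γ κ w (fun z => h (cns (x, g) z)) x1 x' ∂μ ∂γ| ≤ _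
    refine abs_integral_le_integral_abs.trans ?_
    refine integral_mono (b3.intg (ν := μ)).int.abs (b4.intg (ν := μ)).int fun g => ?_
    refine abs_integral_le_integral_abs.trans ?_
    have c3 : BM fun x1 : X => κ x g x1 * W μ γ κ w (fun z => h (cns (x, g) z)) x1 x' :=
      BM.comp b3 (φ := fun x1 : X => (g, x1)) (measurable_const.prodMk measurable_id)
    have c4 : BM fun x1 : X => κ x g x1 * (C * kp μ (kg γ κ) (w + 1) x1 x') :=
      BM.comp b4 (φ := fun x1 : X => (g, x1)) (measurable_const.prodMk measurable_id)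
    refine integral_mono c3.int.abs c4.int fun x1 => ?_
    simp only [abs_mul, abs_of_nonneg (h0 x g x1)]
    refine mul_le_mul_of_nonneg_left ?_ (h0 _ _ _)
    exact ih (BM.comp hh (cns_meas measurable_const measurable_id)) (fun z => hC _) x1 x'

/-- the kernel on sites with time links -/
def k2 (κ : X → Γ → X → ℝ) (y y' : X × Γ) : ℝ := κ y.1 y.2 y'.1

lemma k2_bm (hκ : BW κ) : BM (Function.uncurry (k2 κ)) :=
  hκ.c3 measurable_fst.fst measurable_fst.snd measurable_snd.fst

/-- open chains with a closing factor -/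
lemma it_int (hκ : BW κ) (x0 : X) (m : ℕ) : ∀ x,
    ∫ g, It (μ.prod γ) m (fun _ => k2 κ) (fun y => κ y.1 y.2 x0) (x, g) ∂γ =
      kp μ (kg γ κ) (m + 1) x x0 := by
  have hk := kg_bm (γ := γ) hκ
  have hc : BM fun y : X × Γ => κ y.1 y.2 x0 :=
    hκ.c3 measurable_fst measurable_snd measurable_const
  induction m with
  | zero => intro x; rfl
  | succ m ih =>
    intro x
    have bI : BM (It (μ.prod γ) m (fun _ => k2 κ) fun y => κ y.1 y.2 x0) :=
      It_bm m (fun _ => k2_bm hκ) hc
    have e1 : ∀ g, It (μ.prod γ) (m + 1) (fun _ => k2 κ) (fun y => κ y.1 y.2 x0) (x, g) =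
        ∫ x1, κ x g x1 * kp μ (kg γ κ) (m + 1) x1 x0 ∂μ := by
      intro g
      change ∫ y, k2 κ (x, g) y * It (μ.prod γ) m (fun _ => k2 κ) (fun y => κ y.1 y.2 x0) y
        ∂(μ.prod γ) = _
      have bz : BM fun y : X × Γ => k2 κ (x, g) y *
          It (μ.prod γ) m (fun _ => k2 κ) (fun y => κ y.1 y.2 x0) y :=
        BM.mul (BM.comp (k2_bm hκ) (φ := fun y : X × Γ => ((x, g), y))
          (measurable_const.prodMk measurable_id)) bI
      rw [fub bz]
      congr 1
      funext x1
      rw [← ih x1, ← integral_const_mul]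
      rfl
    simp only [e1]
    rw [swp, kp_succ (by omega)]
    · congr 1
      funext x1
      rw [integral_mul_const]
      rfl
    · refine BM.mul (hκ.c3 measurable_const measurable_fst measurable_snd) ?_
      exact BM.comp (kp_bm hk (n := m + 1) (by omega)) (φ := fun q : Γ × X => (q.2, x0))
        (measurable_snd.prodMk measurable_const)

/-- the chain with a window -/
lemma chainW (hκ : BW κ) (x0 : X) {q : ℕ} (hq : 1 ≤ q) (w : ℕ) :
    ∀ {n : ℕ} (hn : n = w + q) {h : (ℕ → X × Γ) → ℝ}, BM h →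
      (∀ z z', (∀ i < w + 1, z i = z' i) → h z = h z') → ∀ x,
      ∫ g, ∫ u : Fin n → X × Γ, h (ext (Fin.cons (x, g) u : Fin (n + 1) → X × Γ)) *
        ((∏ t : Fin n, k2 κ ((Fin.cons (x, g) u : Fin (n + 1) → X × Γ) t.castSucc)
          ((Fin.cons (x, g) u : Fin (n + 1) → X × Γ) t.succ)) *
        κ ((Fin.cons (x, g) u : Fin (n + 1) → X × Γ) (Fin.last n)).1
          ((Fin.cons (x, g) u : Fin (n + 1) → X × Γ) (Fin.last n)).2 x0)
          ∂(Measure.pi fun _ => μ.prod γ) ∂γ =
      ∫ x', W μ γ κ w h x x' * kp μ (kg γ κ) q x' x0 ∂μ := by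
  have hk := kg_bm (γ := γ) hκ
  have hc : BM fun y : X × Γ => κ y.1 y.2 x0 :=
    hκ.c3 measurable_fst measurable_snd measurable_const
  induction w with
  | zero =>
    intro n hn h hh hdep x
    have hn' : n = q := by omega
    subst hn'
    have e1 : ∀ g (u : Fin n → X × Γ), h (ext (Fin.cons (x, g) u : Fin (n + 1) → X × Γ)) =
        h (fun _ => (x, g)) := by
      intro g u
      refine hdep _ _ fun i hi => ?_
      have : i = 0 := by omega
      subst this
      rfl
    have e2 : ∀ g, ∫ u : Fin n → X × Γ, h (ext (Fin.cons (x, g) u : Fin (n + 1) → X × Γ)) *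
        ((∏ t : Fin n, k2 κ ((Fin.cons (x, g) u : Fin (n + 1) → X × Γ) t.castSucc)
          ((Fin.cons (x, g) u : Fin (n + 1) → X × Γ) t.succ)) *
        κ ((Fin.cons (x, g) u : Fin (n + 1) → X × Γ) (Fin.last n)).1
          ((Fin.cons (x, g) u : Fin (n + 1) → X × Γ) (Fin.last n)).2 x0)
          ∂(Measure.pi fun _ => μ.prod γ) =
        ∫ x', (h (fun _ => (x, g)) * κ x g x') * kp μ (kg γ κ) n x' x0 ∂μ := by
      intro g
      simp only [e1]
      rw [integral_const_mul, chain n (κ := fun _ => k2 κ) (h := fun y => κ y.1 y.2 x0)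
        (fun _ => k2_bm hκ) hc (x, g)]
      obtain ⟨m, rfl⟩ : ∃ m, n = m + 1 := ⟨n - 1, by omega⟩
      change _ * ∫ y, k2 κ (x, g) y * It (μ.prod γ) m (fun _ => k2 κ) (fun y => κ y.1 y.2 x0) y
        ∂(μ.prod γ) = _
      have bz : BM fun y : X × Γ => k2 κ (x, g) y *
          It (μ.prod γ) m (fun _ => k2 κ) (fun y => κ y.1 y.2 x0) y :=
        BM.mul (BM.comp (k2_bm hκ) (φ := fun y : X × Γ => ((x, g), y))
          (measurable_const.prodMk measurable_id)) (It_bm m (fun _ => k2_bm hκ) hc)
      rw [fub bz, ← integral_const_mul]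
      congr 1
      funext x1
      rw [← it_int hκ x0 m x1]
      have : ∫ g', k2 κ (x, g) (x1, g') * It (μ.prod γ) m (fun _ => k2 κ)
          (fun y => κ y.1 y.2 x0) (x1, g') ∂γ = κ x g x1 * ∫ g', It (μ.prod γ) m (fun _ => k2 κ)
          (fun y => κ y.1 y.2 x0) (x1, g') ∂γ := by
        rw [← integral_const_mul]
        rfl
      simp only at this ⊢
      rw [this]
      ring
    simp only [e2]
    rw [swp]
    · congr 1
      funext x'
      rw [integral_mul_const]
      rfl
    · refine BM.mul (BM.mul ?_ (hκ.c3 measurable_const measurable_fst measurable_snd)) ?_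
      · exact BM.comp hh (φ := fun q : Γ × X => fun _ => (x, q.1))
          (measurable_pi_iff.2 fun _ => measurable_const.prodMk measurable_fst)
      · exact BM.comp (kp_bm hk hq) (φ := fun q : Γ × X => (q.2, x0))
          (measurable_snd.prodMk measurable_const)
  | succ w ih =>
    intro n hn h hh hdep x
    obtain ⟨m, rfl⟩ : ∃ m, n = m + 1 := ⟨n - 1, by omega⟩
    have hm : m = w + q := by omega
    -- the integrand
    set I : Γ → (Fin (m + 1) → X × Γ) → ℝ := fun g u =>
      h (ext (Fin.cons (x, g) u : Fin (m + 2) → X × Γ)) *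
        ((∏ t : Fin (m + 1), k2 κ ((Fin.cons (x, g) u : Fin (m + 2) → X × Γ) t.castSucc)
          ((Fin.cons (x, g) u : Fin (m + 2) → X × Γ) t.succ)) *
        κ ((Fin.cons (x, g) u : Fin (m + 2) → X × Γ) (Fin.last (m + 1))).1
          ((Fin.cons (x, g) u : Fin (m + 2) → X × Γ) (Fin.last (m + 1))).2 x0) with hI
    have bI : ∀ g, BM (I g) := by
      intro g
      have m1 : Measurable fun u : Fin (m + 1) → X × Γ =>
          (Fin.cons (x, g) u : Fin (m + 2) → X × Γ) := cons_bm (x, g)
      refine BM.mul (BM.comp hh (ext_meas.comp m1)) (BM.mul (BM.prod _ fun t _ => ?_) ?_)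
      · exact BM.comp (k2_bm hκ) (φ := fun u : Fin (m + 1) → X × Γ =>
          ((Fin.cons (x, g) u : Fin (m + 2) → X × Γ) t.castSucc,
            (Fin.cons (x, g) u : Fin (m + 2) → X × Γ) t.succ))
          (((measurable_pi_apply _).comp m1).prodMk ((measurable_pi_apply _).comp m1))
      · exact BM.comp hc ((measurable_pi_apply (Fin.last (m + 1))).comp m1)
    have e1 : ∀ g (y' : X × Γ) (u : Fin m → X × Γ),
        I g (Fin.cons y' u : Fin (m + 1) → X × Γ) = κ x g y'.1 *
        ((fun z => h (cns (x, g) z)) (ext (Fin.cons y' u : Fin (m + 1) → X × Γ)) *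
        ((∏ t : Fin m, k2 κ ((Fin.cons y' u : Fin (m + 1) → X × Γ) t.castSucc)
          ((Fin.cons y' u : Fin (m + 1) → X × Γ) t.succ)) *
        κ ((Fin.cons y' u : Fin (m + 1) → X × Γ) (Fin.last m)).1
          ((Fin.cons y' u : Fin (m + 1) → X × Γ) (Fin.last m)).2 x0)) := by
      intro g y' u
      simp only [hI]
      rw [ext_cons, Fin.prod_univ_succ]
      have e3 : ∀ t : Fin m, (Fin.cons (x, g) (Fin.cons y' u : Fin (m + 1) → X × Γ) :
          Fin (m + 2) → X × Γ) (Fin.castSucc t.succ) =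
            (Fin.cons y' u : Fin (m + 1) → X × Γ) t.castSucc := fun t => by
        rw [← Fin.succ_castSucc, Fin.cons_succ]
      have e4 : ∀ t : Fin m, (Fin.cons (x, g) (Fin.cons y' u : Fin (m + 1) → X × Γ) :
          Fin (m + 2) → X × Γ) (Fin.succ t.succ) =
            (Fin.cons y' u : Fin (m + 1) → X × Γ) t.succ := fun t => by
        rw [Fin.cons_succ]
      have e5 : (Fin.cons (x, g) (Fin.cons y' u : Fin (m + 1) → X × Γ) :
          Fin (m + 2) → X × Γ) (Fin.last (m + 1)) =
            (Fin.cons y' u : Fin (m + 1) → X × Γ) (Fin.last m) := by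
        rw [← Fin.succ_last, Fin.cons_succ]
      have e6 : (Fin.cons (x, g) (Fin.cons y' u : Fin (m + 1) → X × Γ) :
          Fin (m + 2) → X × Γ) (Fin.castSucc 0) = (x, g) := rfl
      have e7 : (Fin.cons (x, g) (Fin.cons y' u : Fin (m + 1) → X × Γ) :
          Fin (m + 2) → X × Γ) (Fin.succ 0) = y' := rfl
      simp only [e3, e4, e5, e6, e7]
      have e8 : k2 κ (x, g) y' = κ x g y'.1 := rfl
      rw [e8]
      ring
    have hdep' : ∀ g : Γ, ∀ z z' : ℕ → X × Γ, (∀ i < w + 1, z i = z' i) →
        h (cns (x, g) z) = h (cns (x, g) z') := by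
      intro g z z' hz
      refine hdep _ _ fun i hi => ?_
      cases i with
      | zero => rfl
      | succ i => exact hz i (by omega)
    have e2 : ∀ g, ∫ u : Fin (m + 1) → X × Γ, I g u ∂(Measure.pi fun _ => μ.prod γ) =
        ∫ x1, κ x g x1 * ∫ x', W μ γ κ w (fun z => h (cns (x, g) z)) x1 x' *
          kp μ (kg γ κ) q x' x0 ∂μ ∂μ := by
      intro g
      have hhg : BM fun z : ℕ → X × Γ => h (cns (x, g) z) :=
        BM.comp hh (cns_meas measurable_const measurable_id)
      rw [int_cons (bI g)]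
      simp only [e1]
      simp only [integral_const_mul]
      rw [fub]
      · congr 1
        funext x1
        rw [← ih hm hhg (hdep' g) x1, ← integral_const_mul]
      · refine BM.mul (hκ.c3 measurable_const measurable_const measurable_fst) ?_
        -- joint measurability
        have m1 : Measurable fun q : (X × Γ) × (Fin m → X × Γ) =>
            (Fin.cons q.1 q.2 : Fin (m + 1) → X × Γ) := cons2_meas
        have b5 : BM fun q : (X × Γ) × (Fin m → X × Γ) =>
            (fun z => h (cns (x, g) z)) (ext (Fin.cons q.1 q.2 : Fin (m + 1) → X × Γ)) *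
            ((∏ t : Fin m, k2 κ ((Fin.cons q.1 q.2 : Fin (m + 1) → X × Γ) t.castSucc)
              ((Fin.cons q.1 q.2 : Fin (m + 1) → X × Γ) t.succ)) *
            κ ((Fin.cons q.1 q.2 : Fin (m + 1) → X × Γ) (Fin.last m)).1
              ((Fin.cons q.1 q.2 : Fin (m + 1) → X × Γ) (Fin.last m)).2 x0) := by
          refine BM.mul (BM.comp hhg (ext_meas.comp m1)) (BM.mul (BM.prod _ fun t _ => ?_) ?_)
          · exact BM.comp (k2_bm hκ) (φ := fun q : (X × Γ) × (Fin m → X × Γ) =>
              ((Fin.cons q.1 q.2 : Fin (m + 1) → X × Γ) t.castSucc,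
                (Fin.cons q.1 q.2 : Fin (m + 1) → X × Γ) t.succ))
              (((measurable_pi_apply _).comp m1).prodMk ((measurable_pi_apply _).comp m1))
          · exact BM.comp hc ((measurable_pi_apply (Fin.last m)).comp m1)
        exact b5.intg (ν := Measure.pi fun _ : Fin m => μ.prod γ)
    change ∫ g, ∫ u : Fin (m + 1) → X × Γ, I g u ∂(Measure.pi fun _ => μ.prod γ) ∂γ = _
    simp only [e2]
    -- exchange of the integrals
    have b6 : BM fun p : (Γ × X) × X => κ x p.1.1 p.1.2 *
        (W μ γ κ w (fun z => h (cns (x, p.1.1) z)) p.1.2 p.2 * kp μ (kg γ κ) q p.2 x0) := by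
      refine BM.mul (hκ.c3 measurable_const measurable_fst.fst measurable_fst.snd)
        (BM.mul ?_ ?_)
      · exact BM.comp (W_bm2 (μ := μ) (γ := γ) hκ w hh)
          (φ := fun p : (Γ × X) × X => ((x, p.1.1), (p.1.2, p.2)))
          ((measurable_const.prodMk measurable_fst.fst).prodMk
            (measurable_fst.snd.prodMk measurable_snd))
      · exact BM.comp (kp_bm hk hq) (φ := fun p : (Γ × X) × X => (p.2, x0))
          (measurable_snd.prodMk measurable_const)
    have s1 : ∀ g, ∫ x1, κ x g x1 * ∫ x', W μ γ κ w (fun z => h (cns (x, g) z)) x1 x' *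
          kp μ (kg γ κ) q x' x0 ∂μ ∂μ =
        ∫ x', ∫ x1, κ x g x1 * (W μ γ κ w (fun z => h (cns (x, g) z)) x1 x' *
          kp μ (kg γ κ) q x' x0) ∂μ ∂μ := by
      intro g
      rw [← swp]
      · simp only [integral_const_mul]
      · exact BM.comp b6 (φ := fun p : X × X => ((g, p.1), p.2))
          ((measurable_const.prodMk measurable_fst).prodMk measurable_snd)
    simp only [s1]
    rw [swp]
    · congr 1
      funext x'
      change _ = (∫ g, ∫ x1, κ x g x1 * W μ γ κ w (fun z => h (cns (x, g) z)) x1 x' ∂μ ∂γ) * _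
      rw [← integral_mul_const]
      congr 1
      funext g
      rw [← integral_mul_const]
      congr 1
      funext x1
      ring
    · have b7 : BM fun p : (Γ × X) × X => κ x p.1.1 p.2 *
          (W μ γ κ w (fun z => h (cns (x, p.1.1) z)) p.2 p.1.2 * kp μ (kg γ κ) q p.1.2 x0) :=
        BM.comp b6 (φ := fun p : (Γ × X) × X => ((p.1.1, p.2), p.1.2))
          ((measurable_fst.fst.prodMk measurable_snd).prodMk measurable_fst.snd)
      exact b7.intg (ν := μ)

/-- the ring with a window -/
lemma ringW (hκ : BW κ) {w q n : ℕ} (hq : 1 ≤ q) (hn : n = w + q) {h : (ℕ → X × Γ) → ℝ}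
    (hh : BM h) (hdep : ∀ z z', (∀ i < w + 1, z i = z' i) → h z = h z') :
    ∫ z : Fin (n + 1) → X × Γ, h (ext z) * ∏ t : Fin (n + 1), k2 κ (z t) (z (t + 1))
      ∂(Measure.pi fun _ => μ.prod γ) = TrL μ (kp μ (kg γ κ)) (W μ γ κ w h) q := by
  have b1 : BM fun z : Fin (n + 1) → X × Γ =>
      h (ext z) * ∏ t : Fin (n + 1), k2 κ (z t) (z (t + 1)) := by
    refine BM.mul (BM.comp hh ext_meas) (BM.prod _ fun t _ => ?_)
    exact BM.comp (k2_bm hκ) (φ := fun z : Fin (n + 1) → X × Γ => (z t, z (t + 1)))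
      ((measurable_pi_apply _).prodMk (measurable_pi_apply _))
  rw [int_cons b1]
  have b2 : BM fun y : X × Γ => ∫ u : Fin n → X × Γ,
      (fun z : Fin (n + 1) → X × Γ => h (ext z) * ∏ t : Fin (n + 1), k2 κ (z t) (z (t + 1)))
        (Fin.cons y u) ∂(Measure.pi fun _ => μ.prod γ) := by
    have m1 : Measurable fun q : (X × Γ) × (Fin n → X × Γ) =>
        (Fin.cons q.1 q.2 : Fin (n + 1) → X × Γ) := cons2_meas
    exact (BM.comp b1 m1).intg (ν := Measure.pi fun _ : Fin n => μ.prod γ)
  rw [fub b2]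
  unfold TrL
  congr 1
  funext x
  rw [← chainW hκ x hq w hn hh hdep x]
  congr 1
  funext g
  congr 1
  funext u
  simp only
  congr 1
  rw [Fin.prod_univ_castSucc]
  congr 1
  · refine Finset.prod_congr rfl fun t _ => ?_
    rw [Fin.coeSucc_eq_succ]
  · rw [Fin.last_add_one]
    rfl

end abs

/-! ### slices -/

section slices

variable {G : Type u} {E A B : Type} [Fintype E] [Fintype A] [Fintype B] {N : ℕ} [NeZero N]
  (σ : (ZMod N × A) ⊕ (ZMod N × B) ≃ E) [MeasurableSpace G] {μ : Measure G}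
  [IsProbabilityMeasure μ]

/-- the sequence of slices -/
def sq (U : E → G) : ℕ → (A → G) × (B → G) := fun i => (xs σ U (i : ZMod N), gs σ U (i : ZMod N))

lemma sq_meas : Measurable (sq σ : (E → G) → ℕ → (A → G) × (B → G)) :=
  measurable_pi_iff.2 fun i => (xs_meas σ _).prodMk (gs_meas σ _)

/-- integrals of window observables -/
theorem int_win {κ : (A → G) → (B → G) → (A → G) → ℝ} (hκ : BK κ) {w q : ℕ} (hq : 1 ≤ q)
    (hN : N = w + 1 + q) {h : (ℕ → (A → G) × (B → G)) → ℝ} (hh : BM h)
    (hdep : ∀ z z', (∀ i < w + 1, z i = z' i) → h z = h z') :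
    ∫ U, h (sq σ U) * ∏ t, κ (xs σ U t) (gs σ U t) (xs σ U (t + 1)) ∂(PM μ E) =
      TrL (PM μ A) (kp (PM μ A) (kk μ κ)) (W (PM μ A) (PM μ B) κ w h) q := by
  obtain ⟨n, rfl⟩ : ∃ n, N = n + 1 := ⟨N - 1, by omega⟩
  have hκ' : BW κ := hκ
  have b0 : BM fun z : ZMod (n + 1) → (A → G) × (B → G) =>
      h (fun i : ℕ => z (i : ZMod (n + 1))) * ∏ t, k2 κ (z t) (z (t + 1)) := by
    refine BM.mul (BM.comp hh (measurable_pi_iff.2 fun i => measurable_pi_apply _))
      (BM.prod _ fun t _ => ?_)
    exact BM.comp (k2_bm hκ') (φ := fun z : ZMod (n + 1) → (A → G) × (B → G) =>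
      (z t, z (t + 1))) ((measurable_pi_apply _).prodMk (measurable_pi_apply _))
  have mp := (measurePreserving_arrowProdEquivProdArrow (A → G) (B → G) (ZMod (n + 1))
    (fun _ => PM μ A) (fun _ => PM μ B)).symm
  have b1 : BM fun w : (ZMod (n + 1) → A → G) × (ZMod (n + 1) → B → G) =>
      (fun z : ZMod (n + 1) → (A → G) × (B → G) =>
      h (fun i : ℕ => z (i : ZMod (n + 1))) * ∏ t, k2 κ (z t) (z (t + 1)))
        (fun t => (w.1 t, w.2 t)) :=
    BM.comp b0 (φ := fun w : (ZMod (n + 1) → A → G) × (ZMod (n + 1) → B → G) =>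
      fun t => (w.1 t, w.2 t)) (measurable_pi_iff.2 fun t =>
      ((measurable_pi_apply t).comp measurable_fst).prodMk
        ((measurable_pi_apply t).comp measurable_snd))
  have h1 := int_slices (μ := μ) σ b1
  have h2 : ∫ U, h (sq σ U) * ∏ t, κ (xs σ U t) (gs σ U t) (xs σ U (t + 1)) ∂(PM μ E) =
      ∫ z : ZMod (n + 1) → (A → G) × (B → G),
        h (fun i : ℕ => z (i : ZMod (n + 1))) * ∏ t, k2 κ (z t) (z (t + 1))
          ∂(Measure.pi fun _ => (PM μ A).prod (PM μ B)) := by
    refine h1.trans ?_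
    rw [← fub b1]
    exact mp.integral_comp' (g := fun z : ZMod (n + 1) → (A → G) × (B → G) =>
        h (fun i : ℕ => z (i : ZMod (n + 1))) * ∏ t, k2 κ (z t) (z (t + 1)))
  rw [h2]
  have h3 : ∀ z : ZMod (n + 1) → (A → G) × (B → G),
      h (fun i : ℕ => z (i : ZMod (n + 1))) = h (ext (n := n) z) := by
    intro z
    refine hdep _ _ fun i hi => ?_
    unfold ext
    congr 1
    have hi' : i < n + 1 := by omega
    apply Fin.ext
    change (((i : ℕ) : ZMod (n + 1)) : Fin (n + 1)).val = min i n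
    have : ((i : ℕ) : ZMod (n + 1)).val = i := ZMod.val_natCast_of_lt hi'
    rw [min_eq_left (by omega)]
    exact this
  simp only [h3]
  exact ringW hκ' hq (by omega) hh hdep

end slices

end Run7.h182.Win
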